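import Pool.Agent.V7H25.TF.Mst

set_option autoImplicit false

/-!
# Toric hypersurfaces over a field which is not closed (helper25)
-/

open MvPolynomial Pool.Agent.Y200.CY Pool.Agent.Y742.GG

namespace Pool.Agent.V7H25.TF

variable {Ω K : Type} [Field Ω] [CharZero Ω] [Field K] [Algebra Ω K]

/-- **Toric hypersurfaces** are connected by curves of genus at most one. -/
theorem toric_curves {L : IntermediateField Ω K} {N m : ℕ} {x : Fin N → K}
    {f : MvPolynomial (Fin N) L} {a b : Fin m → Fin N → ℤ} {Λ : Submodule ℤ (Fin N → ℤ)}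
    (hx : GPt f x) (hfull : Full f) (hd : ∀ i, (∃ p q, Dual (a i) (b i) p q))
    (ht : ∀ i, Thin f (a i) (b i)) (hΛ : Linked f a b Λ)
    (hrank : ∀ μ : Fin N → ℤ, (∀ v ∈ Λ, dot v μ = 0) → μ = 0) :
    ∃ s : Set (IntermediateField Ω K), s.Finite ∧ (∀ E ∈ s, Crv E) ∧
      ∀ z : K, (∀ E ∈ s, IsAlgebraic E z) → IsAlgebraic L z := by
  have hcL : CharZero L := charZero_of_injective_algebraMap (algebraMap Ω L).injective
  choose p q hd using hd
  refine ⟨Set.range fun i => (fld L x (orth (a i) (b i))).restrictScalars Ω,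
    Set.finite_range _, ?_, ?_⟩
  · rintro _ ⟨i, rfl⟩
    have h1 := (hd i).curve hx hfull
    rcases (hd i).fibre hx hfull (ht i) with h | h
    · exact Or.inl h
    · exact Or.inr (Or.inr ⟨h, fun z hz => fld_closed (Ω := L) (x := x) (W := orth (a i) (b i)) z hz,
        _, h1⟩)
  · intro z hz
    exact inv_linked_alg hx hfull hΛ hrank fun i => hz _ ⟨i, rfl⟩

end Pool.Agent.V7H25.TF
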