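import Pool.Agent.V7H25.TF.Inv
import Pool.Agent.Y200.CY.FinalF
import Pool.Agent.Y742.CN.Main

set_option autoImplicit false

/-!
# Toric fibrations of hypersurfaces: density (helper25)
-/

open MvPolynomial Module Cardinal AlgebraicGeometry CategoryTheory
open Pool.Agent.Y200.CB Pool.Agent.Y200.CY Pool.Agent.W572 Pool.Agent.W572.G

namespace Pool.Agent.V7H25.TF

/-- a finite transcendence basis -/
lemma exists_basis {Ω K : Type} [Field Ω] [Field K] [Algebra Ω K] {N : ℕ}
    {f : MvPolynomial (Fin N) Ω} {x : Fin N → K} (hx : GPt f x) :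
    ∃ (n : ℕ) (y : Fin n → K), IsTranscendenceBasis Ω y := by
  have halg : Algebra.IsAlgebraic (Algebra.adjoin Ω (Set.range x)) K := by
    rw [← IntermediateField.isAlgebraic_adjoin_iff_top, hx.generates]
    exact ⟨fun a => isAlgebraic_algebraMap (⟨a, trivial⟩ : (⊤ : IntermediateField Ω K))⟩
  obtain ⟨s, hs, hs'⟩ := exists_isTranscendenceBasis_subset (R := Ω) (Set.range x)
  have hfin : s.Finite := (Set.finite_range x).subset hs
  have : Finite s := hfin
  let e := Finite.equivFin s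
  exact ⟨Nat.card s, fun i => (e.symm i : K), hs'.comp_equiv e.symm⟩

/-- **Points.** -/
theorem pts (k₀ : Type) [Field k₀] [CharZero k₀] (hk₀ : Pool.Agent.Y742.GG.FG k₀) {N m : ℕ}
    (f : MvPolynomial (Fin N) k₀)
    (hf : Irreducible (map (algebraMap k₀ (AlgebraicClosure k₀)) f))
    {K : Type} [Field K] [Algebra (AlgebraicClosure k₀) K] {x : Fin N → K}
    (hx : GPt (map (algebraMap k₀ (AlgebraicClosure k₀)) f) x)
    (hfull : Full (map (algebraMap k₀ (AlgebraicClosure k₀)) f))
    {a b p q : Fin m → Fin N → ℤ} (hd : ∀ i, Dual (a i) (b i) (p i) (q i))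
    (ht : ∀ i, Thin (map (algebraMap k₀ (AlgebraicClosure k₀)) f) (a i) (b i))
    (hconn : ∀ i j, Relation.ReflTransGen (fun i j => Meet (a i) (b i) (a j) (b j)) i j)
    (hspan : ∀ μ : Fin N → ℤ, (∀ i, dot (a i) μ = 0 ∧ dot (b i) μ = 0) → μ = 0) :
    Pts k₀ f := by
  have hchar : CharZero (AlgebraicClosure k₀) :=
    charZero_of_injective_algebraMap (algebraMap k₀ (AlgebraicClosure k₀)).injective
  obtain ⟨n, y, hy⟩ := exists_basis hx
  refine pts3 k₀ hk₀ f hf hx (fun i => fld (AlgebraicClosure k₀) x (orth (a i) (b i)))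
    (fun i => (hd i).fibre hx hfull (ht i)) ?_
  exact Pool.Agent.Y742.CN.sMain _ K (Fin m) n y hy
    (fun i => fld (AlgebraicClosure k₀) x (orth (a i) (b i)))
    (fun i => ⟨_, (hd i).curve hx hfull⟩) (fun z hz => inv hx hfull hconn hspan hz)

end Pool.Agent.V7H25.TF
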