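import Pool.Agent.V7H25.TF.Ind
import Pool.Agent.Y200.CY.Qd
import Pool.Agent.Y200.CY.Ct

set_option autoImplicit false

/-!
# Toric fibrations of hypersurfaces: the fibres (helper25)
-/

open MvPolynomial Module Cardinal
open Pool.Agent.Y200.CB Pool.Agent.Y200.CY

namespace Pool.Agent.V7H25.TF

variable {Ω K : Type} [Field Ω] [Field K] [Algebra Ω K] {N : ℕ}
variable {f : MvPolynomial (Fin N) Ω} {x : Fin N → K}

/-- the subspace orthogonal to `a` and `b` -/
def orth (a b : Fin N → ℤ) : Submodule ℚ (Fin N → ℚ) := hyp a ⊓ hyp b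

/-- The Newton polygon of the generic fibre is small. -/
def Thin (f : MvPolynomial (Fin N) Ω) (a b : Fin N → ℤ) : Prop :=
  ∃ α β : ℤ, (∀ m ∈ f.support, α ≤ dot a (ev m) ∧ β ≤ dot b (ev m)) ∧
    ((∀ m ∈ f.support, dot a (ev m) ≤ α + 2 ∧ dot b (ev m) ≤ β + 2) ∨
      (∀ m ∈ f.support, 2 * dot a (ev m) + dot b (ev m) ≤ 2 * α + β + 4) ∨
      (∀ m ∈ f.support, dot a (ev m) + dot b (ev m) ≤ α + β + 3) ∨
      (∀ m ∈ f.support, dot a (ev m) ≤ α + 1))

/-- `p`, `q` are dual to `a`, `b` -/
structure Dual (a b p q : Fin N → ℤ) : Prop where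
  ap : dot a p = 1
  aq : dot a q = 0
  bp : dot b p = 0
  bq : dot b q = 1

variable {a b p q : Fin N → ℤ}

lemma Dual.a_ne (h : Dual a b p q) : a ≠ 0 := by
  rintro rfl
  have := h.ap
  simp [dot] at this

lemma Dual.b_ne (h : Dual a b p q) : b ≠ 0 := by
  rintro rfl
  have := h.bq
  simp [dot] at this

lemma dot_add (v μ ν : Fin N → ℤ) : dot v (μ + ν) = dot v μ + dot v ν := by
  simp only [dot, Pi.add_apply, mul_add, Finset.sum_add_distrib]

/-- the part orthogonal to `a` and `b` -/
def res (a b p q μ : Fin N → ℤ) : Fin N → ℤ := μ - (dot a μ • p + dot b μ • q)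

lemma Dual.res_mem (h : Dual a b p q) (μ : Fin N → ℤ) : rv (res a b p q μ) ∈ orth a b := by
  constructor
  · refine rv_mem_hyp.2 ?_
    rw [res, dot_sub, dot_add, dot_smul, dot_smul, h.ap, h.aq]
    ring
  · refine rv_mem_hyp.2 ?_
    rw [res, dot_sub, dot_add, dot_smul, dot_smul, h.bp, h.bq]
    ring

lemma mon_res (hx0 : ∀ l, x l ≠ 0) (a b p q μ : Fin N → ℤ) : mon x μ =
    mon x (res a b p q μ) * (mon x p ^ dot a μ * mon x q ^ dot b μ) := by
  rw [← mon_smul, ← mon_smul, ← mon_add hx0, ← mon_add hx0, res, sub_add_cancel]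

/-- generation -/
lemma Dual.gen (hx : GPt f x) (hx0 : ∀ l, x l ≠ 0) (h : Dual a b p q) :
    IntermediateField.adjoin (fld Ω x (orth a b)) {mon x p, mon x q} = ⊤ := by
  rw [eq_top_iff]
  intro z _
  have h1 : IntermediateField.adjoin Ω (Set.range x) ≤
      (IntermediateField.adjoin (fld Ω x (orth a b)) {mon x p, mon x q}).restrictScalars Ω := by
    rw [IntermediateField.adjoin_le_iff]
    rintro _ ⟨l, rfl⟩
    change x l ∈ IntermediateField.adjoin (fld Ω x (orth a b)) {mon x p, mon x q}
    rw [← mon_single (x := x) l, mon_res hx0 a b p q (Pi.single l 1)]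
    have h3 : mon x p ∈ IntermediateField.adjoin (fld Ω x (orth a b)) {mon x p, mon x q} :=
      IntermediateField.subset_adjoin _ _ (by simp)
    have h4 : mon x q ∈ IntermediateField.adjoin (fld Ω x (orth a b)) {mon x p, mon x q} :=
      IntermediateField.subset_adjoin _ _ (by simp)
    have h5 : mon x (res a b p q (Pi.single l 1)) ∈
        IntermediateField.adjoin (fld Ω x (orth a b)) {mon x p, mon x q} :=
      IntermediateField.algebraMap_mem _
        (⟨_, mon_mem_fld (h.res_mem _)⟩ : fld Ω x (orth a b))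
    exact mul_mem h5 (mul_mem (zpow_mem h3 _) (zpow_mem h4 _))
  have h2 : z ∈ IntermediateField.adjoin Ω (Set.range x) := by rw [hx.generates]; trivial
  exact h1 h2

/-- the base and one more monomial -/
lemma Dual.curve (hx : GPt f x) (hfull : Full f) (h : Dual a b p q) :
    Transcendental (fld Ω x (orth a b)) (mon x q) ∧
      ∀ z : K, IsAlgebraic (IntermediateField.adjoin (fld Ω x (orth a b)) {mon x q}) z := by
  classical
  have hx0 := x_ne_zero hx hfull
  obtain ⟨r, μ, hμ, hμs⟩ := exists_int_basis (orth a b)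
  have hq : rv q ∈ hyp a := rv_mem_hyp.2 h.aq
  have hqn : rv q ∉ orth a b := by
    rintro ⟨-, h2⟩
    have := rv_mem_hyp.1 h2
    rw [h.bq] at this
    exact one_ne_zero this
  set g : Option (Fin r) → Fin N → ℤ := fun o => o.elim q μ with hg
  have hgli : LinearIndependent ℚ (fun i => rv (g i)) := by
    rw [linearIndependent_option]
    refine ⟨hμ, ?_⟩
    change rv q ∉ Submodule.span ℚ (Set.range fun i => rv (μ i))
    rw [hμs]
    exact hqn
  have hin : ∀ i, rv (g i) ∈ hyp a := by
    rintro (_ | i)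
    · exact hq
    · have : rv (μ i) ∈ orth a b := by
        rw [← hμs]; exact Submodule.subset_span ⟨i, rfl⟩
      exact this.1
  have hind := indep_mon hx hfull h.a_ne hgli hin
  have hLle : fld Ω x (orth a b) ≤ cl Ω (Set.range fun i => mon x (μ i)) :=
    fld_le_span hx0 μ hμs.ge
  constructor
  · intro halg
    have h1 : mon x q ∈ cl Ω (Set.range fun i => mon x (μ i)) :=
      mem_cl_of_isAlgebraic (isAlgebraic_of_le hLle halg)
    rw [mem_cl, IntermediateField.isAlgebraic_adjoin_iff] at h1
    have h2 := (AlgebraicIndependent.option_iff_transcendental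
      (hind.comp some (Option.some_injective _)) (mon x q)).1 (by
        convert! hind using 1
        funext o
        rcases o with _ | i <;> rfl)
    exact h2 h1
  · -- everything is algebraic over the monomials orthogonal to `a`
    have hspan : hyp a ≤ Submodule.span ℚ (Set.range fun i => rv (g i)) := by
      intro y hy
      have hb1 : (∑ l, (b l : ℚ) * rv q l) = 1 := by
        have := h.bq
        rw [dot] at this
        have h3 := congrArg (fun z : ℤ => (z : ℚ)) this
        push_cast at h3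
        exact h3
      set c : ℚ := ∑ l, (b l : ℚ) * y l with hc
      have h4 : y - c • rv q ∈ orth a b := by
        refine ⟨Submodule.sub_mem _ hy (Submodule.smul_mem _ _ hq), ?_⟩
        refine mem_hyp.2 ?_
        simp only [Pi.sub_apply, Pi.smul_apply, smul_eq_mul, mul_sub, Finset.sum_sub_distrib]
        have h5 : ∑ l, (b l : ℚ) * (c * rv q l) = c * ∑ l, (b l : ℚ) * rv q l := by
          rw [Finset.mul_sum]
          exact Finset.sum_congr rfl fun l _ => by ring
        rw [h5, hb1, mul_one, hc, sub_self]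
      have h5 : y = (y - c • rv q) + c • rv q := by rw [sub_add_cancel]
      rw [h5]
      refine Submodule.add_mem _ ?_ (Submodule.smul_mem _ _ (Submodule.subset_span ⟨none, rfl⟩))
      rw [← hμs] at h4
      refine Submodule.span_mono ?_ h4
      rintro _ ⟨i, rfl⟩
      exact ⟨some i, rfl⟩
    intro z
    have h6 : z ∈ cl Ω (Set.range fun i => mon x (g i)) := by
      have h7 := fld_le_span (Ω := Ω) hx0 g hspan
      rw [fld_hyp hx hfull h.a_ne] at h7
      exact h7 trivial
    rw [mem_cl] at h6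
    have h8 : IntermediateField.adjoin Ω (Set.range fun i => mon x (g i)) ≤
        (IntermediateField.adjoin (fld Ω x (orth a b)) {mon x q}).restrictScalars Ω := by
      rw [IntermediateField.adjoin_le_iff]
      rintro _ ⟨_ | i, rfl⟩
      · exact IntermediateField.subset_adjoin (fld Ω x (orth a b)) {mon x q} rfl
      · have : rv (μ i) ∈ orth a b := by
          rw [← hμs]; exact Submodule.subset_span ⟨i, rfl⟩
        exact IntermediateField.algebraMap_mem
          (IntermediateField.adjoin (fld Ω x (orth a b)) {mon x q})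
          (⟨_, mon_mem_fld this⟩ : fld Ω x (orth a b))
    exact isAlgebraic_of_le h8 h6

/-- the equation of the fibre -/
theorem Dual.equation (hx : GPt f x) (hfull : Full f) (h : Dual a b p q) {α β : ℤ}
    (hαβ : ∀ m ∈ f.support, α ≤ dot a (ev m) ∧ β ≤ dot b (ev m)) :
    ∃ g : MvPolynomial (Fin 2) (fld Ω x (orth a b)), g ≠ 0 ∧
      aeval ![mon x p, mon x q] g = 0 ∧
      ∀ n ∈ g.support, ∃ m ∈ f.support, (n 0 : ℤ) = dot a (ev m) - α ∧
        (n 1 : ℤ) = dot b (ev m) - β := by
  classical
  have hx0 := x_ne_zero hx hfull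
  set L := fld Ω x (orth a b) with hL
  set u := mon x p with hu
  set v := mon x q with hv
  have hu0 : u ≠ 0 := mon_ne_zero hx0 _
  have hv0 : v ≠ 0 := mon_ne_zero hx0 _
  let E : (Fin N →₀ ℕ) → (Fin 2 →₀ ℕ) := fun m =>
    Finsupp.single 0 (dot a (ev m) - α).toNat + Finsupp.single 1 (dot b (ev m) - β).toNat
  have hE0 : ∀ m, E m 0 = (dot a (ev m) - α).toNat := by intro m; simp [E]
  have hE1 : ∀ m, E m 1 = (dot b (ev m) - β).toNat := by intro m; simp [E]
  let co : (Fin N →₀ ℕ) → L := fun m => algebraMap Ω L (coeff m f) *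
    ⟨mon x (res a b p q (ev m)), mon_mem_fld (h.res_mem _)⟩
  have hco : ∀ m, algebraMap L K (co m) = algebraMap Ω K (coeff m f) *
      mon x (res a b p q (ev m)) := by
    intro m
    change algebraMap L K (algebraMap Ω L (coeff m f) * _) = _
    rw [map_mul, ← IsScalarTower.algebraMap_apply]
    rfl
  set g : MvPolynomial (Fin 2) L := ∑ m ∈ f.support, monomial (E m) (co m) with hg
  have hcoeff : ∀ n, coeff n g = ∑ m ∈ f.support, if E m = n then co m else 0 := by
    intro n
    rw [hg, coeff_sum]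
    exact Finset.sum_congr rfl fun m _ => by rw [coeff_monomial]
  refine ⟨g, ?_, ?_, ?_⟩
  · -- nonzero
    intro hg0
    obtain ⟨m₁, hm₁, m₂, hm₂, hne⟩ := hfull a h.a_ne
    set T := f.support.filter (fun m => E m = E m₁) with hT
    have hmT : ∀ m ∈ T, dot a (ev m) = dot a (ev m₁) ∧ dot b (ev m) = dot b (ev m₁) := by
      intro m hm
      obtain ⟨hm1, hm2⟩ := Finset.mem_filter.1 hm
      have h0 := congrArg (fun n : Fin 2 →₀ ℕ => n 0) hm2
      have h1 := congrArg (fun n : Fin 2 →₀ ℕ => n 1) hm2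
      simp only [hE0, hE1] at h0 h1
      have k1 := hαβ m hm1
      have k2 := hαβ m₁ hm₁
      constructor <;> omega
    refine part_ne_zero hx (T := T) (Finset.filter_subset _ _)
      ⟨m₁, Finset.mem_filter.2 ⟨hm₁, rfl⟩⟩ ?_ ?_
    · intro hTf
      apply hne
      rw [← hTf] at hm₂
      exact (hmT m₂ hm₂).1.symm
    · have h3 : algebraMap L K (coeff (E m₁) g) * (u ^ dot a (ev m₁) * v ^ dot b (ev m₁)) =
          ∑ m ∈ T, algebraMap Ω K (coeff m f) * mon x (ev m) := by
        rw [hcoeff, map_sum, Finset.sum_mul, hT, Finset.sum_filter]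
        refine Finset.sum_congr rfl fun m hm => ?_
        by_cases hEm : E m = E m₁
        · rw [if_pos hEm, if_pos hEm, hco]
          obtain ⟨k1, k2⟩ := hmT m (Finset.mem_filter.2 ⟨hm, hEm⟩)
          rw [mon_res hx0 a b p q (ev m), k1, k2]
          ring
        · rw [if_neg hEm, if_neg hEm, map_zero, zero_mul]
      rw [← h3, hg0, coeff_zero, map_zero, zero_mul]
  · -- the equation
    have h1 : aeval x f = 0 := (hx.zero_iff _).2 dvd_rfl
    rw [aeval_eq] at h1
    have h2 : u ^ α * v ^ β * aeval ![u, v] g = 0 := by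
      rw [hg, map_sum, Finset.mul_sum, ← h1]
      refine Finset.sum_congr rfl fun m hm => ?_
      rw [aeval_monomial, Finsupp.prod_fintype _ _ (fun i => pow_zero _), Fin.prod_univ_two, hE0,
        hE1, hco, mon_res hx0 a b p q (ev m)]
      obtain ⟨k1, k2⟩ := hαβ m hm
      have h3 : u ^ α * u ^ (dot a (ev m) - α).toNat = u ^ dot a (ev m) := by
        rw [← zpow_natCast, Int.toNat_of_nonneg (sub_nonneg.2 k1), ← zpow_add₀ hu0]
        congr 1
        ring
      have h4 : v ^ β * v ^ (dot b (ev m) - β).toNat = v ^ dot b (ev m) := by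
        rw [← zpow_natCast, Int.toNat_of_nonneg (sub_nonneg.2 k2), ← zpow_add₀ hv0]
        congr 1
        ring
      change u ^ α * v ^ β * (algebraMap Ω K (coeff m f) * mon x (res a b p q (ev m)) *
        (u ^ (dot a (ev m) - α).toNat * v ^ (dot b (ev m) - β).toNat)) = _
      rw [← hu, ← hv, ← h3, ← h4]
      ring
    exact (mul_eq_zero.1 h2).resolve_left (mul_ne_zero (zpow_ne_zero _ hu0) (zpow_ne_zero _ hv0))
  · intro n hn
    rw [MvPolynomial.mem_support_iff, hcoeff] at hn
    obtain ⟨m, hm, hm'⟩ := Finset.exists_ne_zero_of_sum_ne_zero hn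
    have hEm : E m = n := by
      by_contra hh
      exact hm' (if_neg hh)
    obtain ⟨k1, k2⟩ := hαβ m hm
    refine ⟨m, hm, ?_, ?_⟩
    · rw [← hEm, hE0, Int.toNat_of_nonneg (sub_nonneg.2 k1)]
    · rw [← hEm, hE1, Int.toNat_of_nonneg (sub_nonneg.2 k2)]

/-- curves which are linear in one variable -/
lemma line_of_linear [CharZero Ω] {L : IntermediateField Ω K} {u v : K}
    (hv : Transcendental L v) (hgen : IntermediateField.adjoin L {u, v} = ⊤)
    {g : MvPolynomial (Fin 2) L} (hg : g ≠ 0) (h0 : aeval ![u, v] g = 0)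
    (h1 : ∀ m ∈ g.support, m 0 ≤ 1) : DCL L := by
  classical
  -- the two coefficients
  set A : Polynomial L := ∑ m ∈ g.support with m 0 = 0, Polynomial.C (coeff m g) *
    Polynomial.X ^ m 1 with hA
  set B : Polynomial L := ∑ m ∈ g.support with m 0 = 1, Polynomial.C (coeff m g) *
    Polynomial.X ^ m 1 with hB
  have hsum : aeval ![u, v] g = Polynomial.aeval v A + u * Polynomial.aeval v B := by
    have h2 : aeval ![u, v] g = ∑ m ∈ g.support, algebraMap L K (coeff m g) *
        (u ^ m 0 * v ^ m 1) := by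
      rw [aeval_def, eval₂_eq']
      refine Finset.sum_congr rfl fun m _ => ?_
      rw [Fin.prod_univ_two]
      rfl
    rw [h2, hA, hB, map_sum, map_sum, Finset.mul_sum, Finset.sum_filter, Finset.sum_filter,
      ← Finset.sum_add_distrib]
    refine Finset.sum_congr rfl fun m hm => ?_
    have := h1 m hm
    rcases Nat.le_one_iff_eq_zero_or_eq_one.1 this with h | h
    · rw [if_pos h, if_neg (by omega), h]
      simp
    · rw [if_neg (by omega), if_pos h, h]
      simp only [map_mul, Polynomial.aeval_C, map_pow, Polynomial.aeval_X]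
      ring
  rw [hsum] at h0
  have hcoef : ∀ (e : ℕ) (m : Fin 2 →₀ ℕ), m ∈ g.support → m 0 = e →
      (∑ m ∈ g.support with m 0 = e, Polynomial.C (coeff m g) *
        Polynomial.X ^ m 1 : Polynomial L) ≠ 0 := by
    intro e m hm hme hz
    have h2 := congrArg (fun P : Polynomial L => P.coeff (m 1)) hz
    simp only [Polynomial.finsetSum_coeff, Polynomial.coeff_C_mul, Polynomial.coeff_X_pow,
      Polynomial.coeff_zero] at h2
    rw [Finset.sum_eq_single m] at h2
    · rw [if_pos rfl, mul_one] at h2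
      exact (MvPolynomial.mem_support_iff.1 hm) h2
    · intro m' hm' hne
      rw [if_neg, mul_zero]
      intro h3
      apply hne
      ext i
      fin_cases i
      · change m' 0 = m 0
        rw [(Finset.mem_filter.1 hm').2, hme]
      · exact h3.symm
    · intro h
      exact absurd (Finset.mem_filter.2 ⟨hm, hme⟩) h
  have hBv : Polynomial.aeval v B ≠ 0 := by
    intro hBv
    have hB0 : B = 0 := transcendental_iff.1 hv _ hBv
    have hA0 : A = 0 := by
      rw [hBv, mul_zero, add_zero] at h0
      exact transcendental_iff.1 hv _ h0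
    obtain ⟨m, hm⟩ := Finset.nonempty_iff_ne_empty.2 (fun h => hg (support_eq_empty.1 h))
    rcases Nat.le_one_iff_eq_zero_or_eq_one.1 (h1 m hm) with h | h
    · exact hcoef 0 m hm h hA0
    · exact hcoef 1 m hm h hB0
  refine Qd.line L v hv ?_
  rw [eq_top_iff, ← hgen, IntermediateField.adjoin_le_iff]
  have hvm : v ∈ IntermediateField.adjoin L {v} := IntermediateField.subset_adjoin _ _ rfl
  rintro z (rfl | rfl)
  · have h2 : z = - Polynomial.aeval v A / Polynomial.aeval v B := by
      field_simp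
      linear_combination h0
    change z ∈ IntermediateField.adjoin L {v}
    rw [h2]
    exact div_mem (neg_mem (Qd.aeval_mem L _ hvm A)) (Qd.aeval_mem L _ hvm B)
  · exact hvm

/-- **The fibres.** -/
theorem Dual.fibre [CharZero Ω] (hx : GPt f x) (hfull : Full f) (h : Dual a b p q)
    (ht : Thin f a b) : DCL (fld Ω x (orth a b)) ∨ CubAt (fld Ω x (orth a b)) := by
  have hx0 := x_ne_zero hx hfull
  obtain ⟨α, β, hαβ, ht⟩ := ht
  obtain ⟨g, hg, h0, hsupp⟩ := h.equation hx hfull hαβ
  have hgen := h.gen hx hx0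
  obtain ⟨htr, -⟩ := h.curve hx hfull
  have hnot : ¬ (mon x p ∈ fld Ω x (orth a b) ∧ mon x q ∈ fld Ω x (orth a b)) := by
    rintro ⟨-, h2⟩
    exact htr (isAlgebraic_algebraMap (⟨_, h2⟩ : fld Ω x (orth a b)))
  have hcl : ∀ z : K, IsAlgebraic (fld Ω x (orth a b)) z → z ∈ fld Ω x (orth a b) := fld_closed
  rcases ht with ht | ht | ht | ht
  · left
    refine Qd.qd Ω K _ hcl _ _ hgen hnot g hg h0 (Or.inl fun n hn => ?_)
    obtain ⟨m, hm, h1, h2⟩ := hsupp n hn
    have := ht m hm
    omega
  · left
    refine Qd.qd Ω K _ hcl _ _ hgen hnot g hg h0 (Or.inr (Or.inl fun n hn => ?_))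
    obtain ⟨m, hm, h1, h2⟩ := hsupp n hn
    have := ht m hm
    omega
  · refine Ct.ct Qd.qd Ω K _ hcl _ _ hgen hnot g hg h0 fun n hn => ?_
    obtain ⟨m, hm, h1, h2⟩ := hsupp n hn
    have := ht m hm
    omega
  · left
    refine line_of_linear htr hgen hg h0 fun n hn => ?_
    obtain ⟨m, hm, h1, h2⟩ := hsupp n hn
    have := ht m hm
    omega

end Pool.Agent.V7H25.TF
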