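import Pool.Agent.V7H25.TF.Tb

set_option autoImplicit false

/-!
# Toric fibrations of hypersurfaces: independence of monomials (helper25)
-/

open MvPolynomial Module Cardinal
open Pool.Agent.Y200.CB Pool.Agent.Y200.CY

namespace Pool.Agent.V7H25.TF

section linalg

variable {N : ℕ}

/-- integer bases -/
lemma exists_int_basis (C : Submodule ℚ (Fin N → ℚ)) :
    ∃ (r : ℕ) (μ : Fin r → Fin N → ℤ), LinearIndependent ℚ (fun i => rv (μ i)) ∧
      Submodule.span ℚ (Set.range fun i => rv (μ i)) = C := by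
  set b := finBasis ℚ C with hb
  choose k hk μ hμ using fun i => exists_int ((b i : C) : Fin N → ℚ)
  have hli : LinearIndependent ℚ (fun i => ((b i : C) : Fin N → ℚ)) := by
    have := b.linearIndependent.map' C.subtype (Submodule.ker_subtype C)
    exact this
  have hk' : ∀ i, (k i : ℚ) ≠ 0 := fun i => by exact_mod_cast hk i
  have h1 : (fun i => rv (μ i)) =
      (fun i => Units.mk0 (k i : ℚ) (hk' i)) • (fun i => ((b i : C) : Fin N → ℚ)) := by
    funext i
    rw [← hμ i]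
    rfl
  have h2 : LinearIndependent ℚ (fun i => rv (μ i)) := by
    rw [h1]
    exact hli.units_smul _
  refine ⟨_, μ, h2, ?_⟩
  apply Submodule.eq_of_le_of_finrank_le
  · rw [Submodule.span_le]
    rintro _ ⟨i, rfl⟩
    change rv (μ i) ∈ C
    rw [← hμ i]
    exact C.smul_mem _ (b i).2
  · rw [finrank_span_eq_card h2]
    simp

/-- complements -/
lemma exists_compl {V W : Submodule ℚ (Fin N → ℚ)} (h : V ≤ W) :
    ∃ C ≤ W, V ⊔ C = W ∧ Disjoint V C := by
  obtain ⟨C₀, hC₀⟩ := exists_isCompl V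
  refine ⟨W ⊓ C₀, inf_le_left, ?_, ?_⟩
  · rw [inf_comm, ← sup_inf_assoc_of_le C₀ h, hC₀.sup_eq_top, top_inf_eq]
  · exact hC₀.disjoint.mono_right inf_le_right

lemma finrank_hyp {v : Fin N → ℤ} (hv : v ≠ 0) : finrank ℚ (hyp v) + 1 = N := by
  have h1 : (∑ l, (v l : ℚ) • LinearMap.proj l : Module.Dual ℚ (Fin N → ℚ)) ≠ 0 := by
    intro h
    apply hv
    ext l
    have := LinearMap.congr_fun h (Pi.single l 1)
    simp only [LinearMap.sum_apply, LinearMap.smul_apply, LinearMap.proj_apply, smul_eq_mul,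
      LinearMap.zero_apply] at this
    rw [Finset.sum_eq_single l] at this
    · rw [Pi.single_eq_same, mul_one] at this
      exact_mod_cast this
    · intro b _ hb
      rw [Pi.single_eq_of_ne hb, mul_zero]
    · intro h; exact absurd (Finset.mem_univ _) h
  have := Module.Dual.finrank_ker_add_one_of_ne_zero h1
  rw [finrank_fin_fun] at this
  exact this

end linalg

variable {Ω K : Type} [Field Ω] [Field K] [Algebra Ω K] {N : ℕ}
variable {f : MvPolynomial (Fin N) Ω} {x : Fin N → K}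

lemma le_trdeg (hx : GPt f x) (hfull : Full f) {v : Fin N → ℤ} (hv : v ≠ 0) :
    ((N - 1 : ℕ) : Cardinal) ≤ Algebra.trdeg Ω K := by
  classical
  obtain ⟨m, hm, m', hm', hne⟩ := hfull v hv
  obtain ⟨n, hn, l, hl⟩ : ∃ n ∈ f.support, ∃ l, n l ≠ 0 := by
    by_contra hcon
    push Not at hcon
    apply hne
    have h1 : m = m' := by
      ext l
      rw [hcon m hm l, hcon m' hm' l]
    rw [h1]
  have hdeg : f.degreeOf l ≠ 0 := by
    intro h0
    have := (degreeOf_le_iff.1 h0.le) n hn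
    omega
  have h1 := Ker.ai Ω K N f x hx l hdeg
  have h2 := h1.cardinalMk_le_trdeg
  refine le_trans (le_of_eq ?_) h2
  rw [Cardinal.mk_fintype, Fintype.card_subtype_compl, Fintype.card_fin]
  simp

/-- independence of monomials -/
theorem indep_mon (hx : GPt f x) (hfull : Full f) {v : Fin N → ℤ} (hv : v ≠ 0) {ι : Type}
    [Finite ι] {e : ι → Fin N → ℤ} (hli : LinearIndependent ℚ (fun i => rv (e i)))
    (he : ∀ i, rv (e i) ∈ hyp v) : AlgebraicIndependent Ω (fun i => mon x (e i)) := by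
  classical
  have hx0 := x_ne_zero hx hfull
  have := Fintype.ofFinite ι
  have hle : Submodule.span ℚ (Set.range fun i => rv (e i)) ≤ hyp v := by
    rw [Submodule.span_le]
    rintro _ ⟨i, rfl⟩
    exact he i
  obtain ⟨C, hC, hsup, hdisj⟩ := exists_compl hle
  obtain ⟨r, μ, hμ, hμC⟩ := exists_int_basis C
  set g : ι ⊕ Fin r → Fin N → ℤ := Sum.elim e μ with hg
  have hgli : LinearIndependent ℚ (fun i => rv (g i)) := by
    have h1 := hli.sum_type hμ (by rw [hμC]; exact hdisj)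
    convert! h1 using 1
    funext i
    rcases i with i | i <;> rfl
  have hgspan : Submodule.span ℚ (Set.range fun i => rv (g i)) = hyp v := by
    rw [← hsup, ← hμC, ← Submodule.span_union]
    congr 1
    ext q
    constructor
    · rintro ⟨i | i, rfl⟩
      · exact Or.inl ⟨i, rfl⟩
      · exact Or.inr ⟨i, rfl⟩
    · rintro (⟨i, rfl⟩ | ⟨i, rfl⟩)
      · exact ⟨Sum.inl i, rfl⟩
      · exact ⟨Sum.inr i, rfl⟩
  have hcl : cl Ω (Set.range fun i => mon x (g i)) = ⊤ := by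
    rw [eq_top_iff, ← fld_hyp hx hfull hv]
    exact fld_le_span hx0 g hgspan.ge
  have halg : Algebra.IsAlgebraic (Algebra.adjoin Ω (Set.range fun i => mon x (g i))) K := by
    rw [← IntermediateField.isAlgebraic_adjoin_iff_top]
    refine ⟨fun z => ?_⟩
    rw [← mem_cl, hcl]
    trivial
  have hcard : Fintype.card (ι ⊕ Fin r) = N - 1 := by
    have h1 : finrank ℚ (Submodule.span ℚ (Set.range fun i => rv (g i))) =
        Fintype.card (ι ⊕ Fin r) := finrank_span_eq_card hgli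
    rw [hgspan] at h1
    have h2 := finrank_hyp hv
    omega
  have hbasis : IsTranscendenceBasis Ω (fun i => mon x (g i)) := by
    apply Algebra.IsAlgebraic.isTranscendenceBasis_of_le_trdeg_of_finite
    rw [Cardinal.mk_fintype, hcard]
    exact le_trdeg hx hfull hv
  have h3 := hbasis.1.comp (Sum.inl : ι → ι ⊕ Fin r) Sum.inl_injective
  exact h3

lemma mem_cl_iff_closure {S : Set K} {a : K} :
    a ∈ cl Ω S ↔ a ∈ (AlgebraicIndependent.matroid Ω K).closure S := by
  rw [mem_cl, AlgebraicIndependent.matroid_closure_eq, IntermediateField.isAlgebraic_adjoin_iff]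
  rfl

/-- intersections -/
theorem fld_inf (hx : GPt f x) (hfull : Full f) {v : Fin N → ℤ} (hv : v ≠ 0)
    {W₁ W₂ : Submodule ℚ (Fin N → ℚ)} (h₁ : W₁ ≤ hyp v) (h₂ : W₂ ≤ hyp v) {a : K}
    (ha₁ : a ∈ fld Ω x W₁) (ha₂ : a ∈ fld Ω x W₂) : a ∈ fld Ω x (W₁ ⊓ W₂) := by
  classical
  have hx0 := x_ne_zero hx hfull
  obtain ⟨C₁, hC₁, hsup₁, hdisj₁⟩ := exists_compl (inf_le_left : W₁ ⊓ W₂ ≤ W₁)
  obtain ⟨C₂, hC₂, hsup₂, hdisj₂⟩ := exists_compl (inf_le_right : W₁ ⊓ W₂ ≤ W₂)
  obtain ⟨r, μ, hμ, hμs⟩ := exists_int_basis (W₁ ⊓ W₂)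
  obtain ⟨r₁, μ₁, hμ₁, hμs₁⟩ := exists_int_basis C₁
  obtain ⟨r₂, μ₂, hμ₂, hμs₂⟩ := exists_int_basis C₂
  set g : (Fin r ⊕ Fin r₂) ⊕ Fin r₁ → Fin N → ℤ := Sum.elim (Sum.elim μ μ₂) μ₁ with hg
  have hli2 : LinearIndependent ℚ (Sum.elim (fun i => rv (μ i)) (fun i => rv (μ₂ i))) :=
    hμ.sum_type hμ₂ (by rw [hμs, hμs₂]; exact hdisj₂)
  have hspan2 : Submodule.span ℚ (Set.range (Sum.elim (fun i => rv (μ i)) (fun i => rv (μ₂ i)))) =
      W₂ := by
    rw [Set.Sum.elim_range, Submodule.span_union, hμs, hμs₂, hsup₂]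
  have hdisj : Disjoint W₂ C₁ := by
    rw [Submodule.disjoint_def]
    intro q hq2 hq1
    exact (Submodule.disjoint_def.1 hdisj₁) q ⟨hC₁ hq1, hq2⟩ hq1
  have hli : LinearIndependent ℚ (fun i => rv (g i)) := by
    have h1 := hli2.sum_type hμ₁ (by rw [hspan2, hμs₁]; exact hdisj)
    convert! h1 using 1
    funext i
    rcases i with (i | i) | i <;> rfl
  have hin : ∀ i, rv (g i) ∈ hyp v := by
    intro i
    rcases i with (i | i) | i
    · apply h₂
      rw [← hspan2]
      exact Submodule.subset_span ⟨Sum.inl i, rfl⟩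
    · apply h₂
      rw [← hspan2]
      exact Submodule.subset_span ⟨Sum.inr i, rfl⟩
    · apply h₁
      apply hC₁
      rw [← hμs₁]
      exact Submodule.subset_span ⟨i, rfl⟩
  have hind := indep_mon hx hfull hv hli hin
  set I : Set K := Set.range (fun i => mon x (μ i)) ∪ Set.range (fun i => mon x (μ₁ i)) with hI
  set J : Set K := Set.range (fun i => mon x (μ i)) ∪ Set.range (fun i => mon x (μ₂ i)) with hJ
  have hIJ : (AlgebraicIndependent.matroid Ω K).Indep (I ∪ J) := by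
    rw [AlgebraicIndependent.matroid_indep_iff]
    have h1 := hind.to_subtype_range
    have h2 : I ∪ J = Set.range (fun i => mon x (g i)) := by
      ext z
      constructor
      · rintro ((⟨i, rfl⟩ | ⟨i, rfl⟩) | (⟨i, rfl⟩ | ⟨i, rfl⟩))
        · exact ⟨Sum.inl (Sum.inl i), rfl⟩
        · exact ⟨Sum.inr i, rfl⟩
        · exact ⟨Sum.inl (Sum.inl i), rfl⟩
        · exact ⟨Sum.inl (Sum.inr i), rfl⟩
      · rintro ⟨(i | i) | i, rfl⟩
        · exact Or.inl (Or.inl ⟨i, rfl⟩)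
        · exact Or.inr (Or.inr ⟨i, rfl⟩)
        · exact Or.inl (Or.inr ⟨i, rfl⟩)
    rw [h2]
    exact h1
  have hcap : I ∩ J ⊆ Set.range (fun i => mon x (μ i)) := by
    rintro z ⟨(⟨i, rfl⟩ | ⟨i, rfl⟩), hz⟩
    · exact ⟨i, rfl⟩
    · rcases hz with ⟨j, hj⟩ | ⟨j, hj⟩
      · exact ⟨j, hj⟩
      · exfalso
        have h1 : (Sum.inl (Sum.inr j) : (Fin r ⊕ Fin r₂) ⊕ Fin r₁) = Sum.inr i :=
          hind.injective hj
        exact absurd h1 (by simp)
  have hW₁ : a ∈ (AlgebraicIndependent.matroid Ω K).closure I := by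
    rw [← mem_cl_iff_closure]
    have h1 : fld Ω x W₁ ≤ cl Ω (Set.range fun i => mon x (Sum.elim μ μ₁ i)) := by
      refine fld_le_span hx0 _ ?_
      rw [← hsup₁, ← hμs, ← hμs₁, ← Submodule.span_union]
      refine Submodule.span_mono ?_
      rintro q (⟨i, rfl⟩ | ⟨i, rfl⟩)
      · exact ⟨Sum.inl i, rfl⟩
      · exact ⟨Sum.inr i, rfl⟩
    have h2 : Set.range (fun i => mon x (Sum.elim μ μ₁ i)) = I := by
      ext z
      constructor
      · rintro ⟨i | i, rfl⟩
        · exact Or.inl ⟨i, rfl⟩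
        · exact Or.inr ⟨i, rfl⟩
      · rintro (⟨i, rfl⟩ | ⟨i, rfl⟩)
        · exact ⟨Sum.inl i, rfl⟩
        · exact ⟨Sum.inr i, rfl⟩
    rw [← h2]
    exact h1 ha₁
  have hW₂ : a ∈ (AlgebraicIndependent.matroid Ω K).closure J := by
    rw [← mem_cl_iff_closure]
    have h1 : fld Ω x W₂ ≤ cl Ω (Set.range fun i => mon x (Sum.elim μ μ₂ i)) := by
      refine fld_le_span hx0 _ ?_
      rw [← hsup₂, ← hμs, ← hμs₂, ← Submodule.span_union]
      refine Submodule.span_mono ?_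
      rintro q (⟨i, rfl⟩ | ⟨i, rfl⟩)
      · exact ⟨Sum.inl i, rfl⟩
      · exact ⟨Sum.inr i, rfl⟩
    have h2 : Set.range (fun i => mon x (Sum.elim μ μ₂ i)) = J := by
      ext z
      constructor
      · rintro ⟨i | i, rfl⟩
        · exact Or.inl ⟨i, rfl⟩
        · exact Or.inr ⟨i, rfl⟩
      · rintro (⟨i, rfl⟩ | ⟨i, rfl⟩)
        · exact ⟨Sum.inl i, rfl⟩
        · exact ⟨Sum.inr i, rfl⟩
    rw [← h2]
    exact h1 ha₂
  have h5 : a ∈ (AlgebraicIndependent.matroid Ω K).closure (I ∩ J) := by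
    rw [hIJ.closure_inter_eq_inter_closure]
    exact ⟨hW₁, hW₂⟩
  have h6 := (AlgebraicIndependent.matroid Ω K).closure_subset_closure hcap h5
  rw [← mem_cl_iff_closure] at h6
  refine cl_le_cl ?_ h6
  rintro _ ⟨i, rfl⟩
  refine mon_mem_fld ?_
  rw [← hμs]
  exact Submodule.subset_span ⟨i, rfl⟩

end Pool.Agent.V7H25.TF
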