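import Pool.Agent.V7H25.TF.Fib

set_option autoImplicit false

/-!
# Toric fibrations of hypersurfaces: invariant functions (helper25)
-/

open MvPolynomial Module Cardinal
open Pool.Agent.Y200.CB Pool.Agent.Y200.CY

namespace Pool.Agent.V7H25.TF

variable {Ω K : Type} [Field Ω] [Field K] [Algebra Ω K] {N : ℕ}
variable {f : MvPolynomial (Fin N) Ω} {x : Fin N → K}

/-- the planes spanned by `a`, `b` and by `a'`, `b'` have a line in common -/
def Meet (a b a' b' : Fin N → ℤ) : Prop :=
  ∃ c d c' d' : ℤ, c • a + d • b ≠ 0 ∧ c • a + d • b = c' • a' + d' • b'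

lemma orth_le_hyp (a b : Fin N → ℤ) (c d : ℤ) : orth a b ≤ hyp (c • a + d • b) := by
  rintro y ⟨h1, h2⟩
  have h1' := mem_hyp.1 h1
  have h2' := mem_hyp.1 h2
  rw [mem_hyp]
  have h3 : ∑ l, (((c • a + d • b) l : ℤ) : ℚ) * y l =
      c * ∑ l, (a l : ℚ) * y l + d * ∑ l, (b l : ℚ) * y l := by
    rw [Finset.mul_sum, Finset.mul_sum, ← Finset.sum_add_distrib]
    refine Finset.sum_congr rfl fun l _ => ?_
    simp only [Pi.add_apply, Pi.smul_apply, smul_eq_mul]
    push_cast
    ring
  rw [h3, h1', h2']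
  ring

/-- a path leaving a set has an edge leaving the set -/
lemma exists_edge {α : Type} {R : α → α → Prop} {J : Set α} {i j : α}
    (h : Relation.ReflTransGen R i j) (hi : i ∈ J) (hj : j ∉ J) :
    ∃ k ∈ J, ∃ l, l ∉ J ∧ R k l := by
  induction h with
  | refl => exact absurd hi hj
  | @tail k l hk hkl ih =>
    by_cases hkJ : k ∈ J
    · exact ⟨k, hkJ, l, hj, hkl⟩
    · exact ih hkJ

theorem inv [IsAlgClosed Ω] (hx : GPt f x) (hfull : Full f) {m : ℕ} {a b : Fin m → Fin N → ℤ}
    (hconn : ∀ i j, Relation.ReflTransGen (fun i j => Meet (a i) (b i) (a j) (b j)) i j)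
    (hspan : ∀ μ : Fin N → ℤ, (∀ i, dot (a i) μ = 0 ∧ dot (b i) μ = 0) → μ = 0) {z : K}
    (hz : ∀ i, IsAlgebraic (fld Ω x (orth (a i) (b i))) z) :
    z ∈ Set.range (algebraMap Ω K) := by
  classical
  have hz' : ∀ i, z ∈ fld Ω x (orth (a i) (b i)) := fun i => fld_closed _ (hz i)
  have hfin : z ∈ fld Ω x ⊥ := by
    rcases Nat.eq_zero_or_pos m with hm | hm
    · subst hm
      have hN : IsEmpty (Fin N) := by
        by_contra hne
        rw [not_isEmpty_iff] at hne
        obtain ⟨l⟩ := hne
        have := hspan (Pi.single l 1) (fun i => i.elim0)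
        have h1 := congrFun this l
        simp at h1
      have h1 : (⊥ : IntermediateField Ω K) = ⊤ := by
        rw [← hx.generates, Set.range_eq_empty, IntermediateField.adjoin_empty]
      have h2 : z ∈ (⊥ : IntermediateField Ω K) := by rw [h1]; trivial
      exact (bot_le : (⊥ : IntermediateField Ω K) ≤ fld Ω x ⊥) h2
    · -- a maximal set of indices
      let P : Finset (Fin m) → Prop := fun J => J.Nonempty ∧
        z ∈ fld Ω x (⨅ i ∈ J, orth (a i) (b i))
      have hP : (Finset.univ.filter P).Nonempty := by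
        refine ⟨{⟨0, hm⟩}, Finset.mem_filter.2 ⟨Finset.mem_univ _, ⟨_, Finset.mem_singleton_self _⟩,
          ?_⟩⟩
        have h1 : (⨅ i ∈ ({⟨0, hm⟩} : Finset (Fin m)), orth (a i) (b i)) =
            orth (a ⟨0, hm⟩) (b ⟨0, hm⟩) := by simp
        rw [h1]
        exact hz' _
      obtain ⟨J, hJ, hmax⟩ := (Finset.univ.filter P).exists_max_image Finset.card hP
      obtain ⟨hJne, hJz⟩ := (Finset.mem_filter.1 hJ).2
      obtain ⟨i₀, hi₀⟩ := hJne
      have hall : ∀ j, j ∈ J := by
        by_contra hcon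
        push Not at hcon
        obtain ⟨j₀, hj₀⟩ := hcon
        obtain ⟨k, hk, l, hl, c, d, c', d', hv, hv'⟩ := exists_edge (J := (J : Set (Fin m)))
          (hconn i₀ j₀) hi₀ hj₀
        have h1 : (⨅ i ∈ J, orth (a i) (b i)) ≤ hyp (c • a k + d • b k) :=
          (iInf₂_le k hk).trans (orth_le_hyp _ _ _ _)
        have h2 : orth (a l) (b l) ≤ hyp (c • a k + d • b k) := by
          rw [hv']
          exact orth_le_hyp _ _ _ _
        have h3 := fld_inf hx hfull hv h1 h2 hJz (hz' l)
        have h4 : (⨅ i ∈ insert l J, orth (a i) (b i)) =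
            (⨅ i ∈ J, orth (a i) (b i)) ⊓ orth (a l) (b l) := by
          rw [Finset.iInf_insert, inf_comm]
        have h5 := hmax (insert l J) (Finset.mem_filter.2 ⟨Finset.mem_univ _,
          ⟨l, Finset.mem_insert_self _ _⟩, by rw [h4]; exact h3⟩)
        rw [Finset.card_insert_of_notMem hl] at h5
        omega
      have h1 : (⨅ i ∈ J, orth (a i) (b i)) = ⊥ := by
        rw [eq_bot_iff]
        intro y hy
        obtain ⟨k, hk, μ, hμ⟩ := exists_int y
        have h2 : μ = 0 := by
          apply hspan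
          intro i
          have h3 : y ∈ orth (a i) (b i) := (iInf₂_le i (hall i) :
            (⨅ i ∈ J, orth (a i) (b i)) ≤ orth (a i) (b i)) hy
          have h4 : rv μ ∈ orth (a i) (b i) := by
            rw [← hμ]
            exact Submodule.smul_mem _ _ h3
          exact ⟨rv_mem_hyp.1 h4.1, rv_mem_hyp.1 h4.2⟩
        rw [h2] at hμ
        have h5 : (k : ℚ) ≠ 0 := by exact_mod_cast hk
        have h6 : rv (0 : Fin N → ℤ) = 0 := by
          ext l
          simp [rv]
        rw [h6] at hμ
        rw [Submodule.mem_bot]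
        exact (smul_eq_zero.1 hμ).resolve_left h5
      rw [h1] at hJz
      exact hJz
  have h1 : fld Ω x ⊥ ≤ cl Ω (∅ : Set K) := by
    refine cl_le_cl ?_
    rintro _ ⟨μ, hμ, rfl⟩
    have h2 : μ = 0 := by
      ext l
      have := congrFun ((Submodule.mem_bot ℚ).1 hμ) l
      rw [rv, Pi.zero_apply] at this
      exact_mod_cast this
    rw [h2, mon_zero]
    exact one_mem _
  have h2 := h1 hfin
  rw [mem_cl, IntermediateField.adjoin_empty] at h2
  have h3 : IsAlgebraic Ω z := IsAlgebraic.restrictScalars Ω h2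
  exact minpoly.mem_range_of_degree_eq_one Ω z
    (IsAlgClosed.degree_eq_one_of_irreducible Ω (minpoly.irreducible h3.isIntegral))

end Pool.Agent.V7H25.TF
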