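import Mathlib

set_option autoImplicit false

/-!
# Regular extensions: descent of linear relations (helper25)
-/

open MvPolynomial

namespace Pool.Agent.V7H25.TF

variable {L K : Type} [Field L] [CharZero L] [Field K] [Algebra L K]

/-- the elements algebraic over `L` of the algebraic closure of `K` -/
noncomputable abbrev Mf (L K : Type) [Field L] [Field K] [Algebra L K] :
    IntermediateField L (AlgebraicClosure K) := algebraicClosure L (AlgebraicClosure K)

theorem descend_rel (hcl : ∀ z : K, IsAlgebraic L z → z ∈ Set.range (algebraMap L K))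
    {ι : Type} [Fintype ι] (e : ι → K) (n : ℕ) : ∀ c : ι → AlgebraicClosure K,
      (∀ i, IsAlgebraic L (c i)) → c ≠ 0 → ∑ i, c i * algebraMap K _ (e i) = 0 →
      {i | c i ≠ 0}.ncard ≤ n → ∃ d : ι → L, d ≠ 0 ∧ ∑ i, algebraMap L K (d i) * e i = 0 := by
  classical
  have hcK : CharZero K := charZero_of_injective_algebraMap (algebraMap L K).injective
  induction n with
  | zero =>
    intro c _ hc0 _ hn
    exfalso
    apply hc0
    have h1 : {i | c i ≠ 0} = ∅ := by
      rw [← Set.ncard_eq_zero (Set.toFinite _)]
      omega
    funext i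
    by_contra h
    have : i ∈ {i | c i ≠ 0} := h
    rw [h1] at this
    exact this
  | succ n ih =>
    intro c hc hc0 hrel hn
    obtain ⟨i₀, hi₀⟩ : ∃ i, c i ≠ 0 := by
      by_contra h
      push Not at h
      exact hc0 (funext h)
    set c' : ι → AlgebraicClosure K := fun i => c i * (c i₀)⁻¹ with hc'
    have hc'alg : ∀ i, IsAlgebraic L (c' i) := fun i => (hc i).mul (hc i₀).inv
    have hc'1 : c' i₀ = 1 := mul_inv_cancel₀ hi₀
    have hrel' : ∑ i, c' i * algebraMap K _ (e i) = 0 := by
      have : ∑ i, c' i * algebraMap K _ (e i) = (c i₀)⁻¹ * ∑ i, c i * algebraMap K _ (e i) := by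
        rw [Finset.mul_sum]
        refine Finset.sum_congr rfl fun i _ => ?_
        rw [hc']
        ring
      rw [this, hrel, mul_zero]
    by_cases hfix : ∀ (σ : Gal(AlgebraicClosure K/K)) (i : ι), σ (c' i) = c' i
    · have h1 : ∀ i, ∃ d : L, algebraMap L (AlgebraicClosure K) d = c' i := by
        intro i
        obtain ⟨k, hk⟩ := (InfiniteGalois.mem_range_algebraMap_iff_fixed (k := K) (c' i)).2
          (fun σ => hfix σ i)
        have h2 : IsAlgebraic L k := by
          have := hc'alg i
          rw [← hk] at this
          exact (isAlgebraic_algebraMap_iff (algebraMap K (AlgebraicClosure K)).injective).1 this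
        obtain ⟨d, hd⟩ := hcl k h2
        exact ⟨d, by rw [IsScalarTower.algebraMap_apply L K, hd, hk]⟩
      choose d hd using h1
      refine ⟨d, ?_, ?_⟩
      · intro h0
        have h3 := hd i₀
        rw [h0, hc'1, Pi.zero_apply, map_zero] at h3
        exact zero_ne_one h3
      · apply (algebraMap K (AlgebraicClosure K)).injective
        rw [map_sum, map_zero, ← hrel']
        refine Finset.sum_congr rfl fun i _ => ?_
        rw [map_mul, ← IsScalarTower.algebraMap_apply, hd]
    · push Not at hfix
      obtain ⟨σ, j, hj⟩ := hfix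
      have hσ : ∀ i, IsAlgebraic L (σ (c' i)) := by
        intro i
        exact (hc'alg i).algHom ((σ : AlgebraicClosure K →ₐ[K] AlgebraicClosure K).restrictScalars L)
      refine ih (fun i => σ (c' i) - c' i) (fun i => (hσ i).sub (hc'alg i)) ?_ ?_ ?_
      · intro h0
        exact hj (sub_eq_zero.1 (congrFun h0 j))
      · have h2 : ∑ i, σ (c' i) * algebraMap K _ (e i) = 0 := by
          have := congrArg σ hrel'
          rw [map_sum, map_zero] at this
          rw [← this]
          refine Finset.sum_congr rfl fun i _ => ?_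
          rw [map_mul σ (c' i), AlgEquiv.commutes]
        simp only [sub_mul, Finset.sum_sub_distrib]
        rw [h2, hrel', sub_zero]
      · have hsub : {i | σ (c' i) - c' i ≠ 0} ⊆ {i | c i ≠ 0} \ {i₀} := by
          intro i hi
          refine ⟨?_, ?_⟩
          · intro h0
            apply hi
            have : c' i = 0 := by rw [hc']; simp only; rw [h0, zero_mul]
            rw [this, map_zero, sub_zero]
          · rintro rfl
            apply hi
            rw [hc'1, map_one, sub_self]
        have h3 := Set.ncard_le_ncard hsub (Set.toFinite _)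
        have h4 := Set.ncard_sdiff_singleton_of_mem (s := {i | c i ≠ 0}) (a := i₀) hi₀
        omega

/-- polynomial relations over the algebraic closure descend -/
theorem descend_pol (hcl : ∀ z : K, IsAlgebraic L z → z ∈ Set.range (algebraMap L K)) (u v : K)
    (G : MvPolynomial (Fin 2) (Mf L K)) (hG : G ≠ 0)
    (h0 : aeval ![algebraMap K (AlgebraicClosure K) u, algebraMap K (AlgebraicClosure K) v] G = 0) :
    ∃ G' : MvPolynomial (Fin 2) L, G' ≠ 0 ∧ aeval ![u, v] G' = 0 ∧
      G'.totalDegree ≤ G.totalDegree := by
  classical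
  obtain ⟨d, hd, hrel⟩ := descend_rel hcl (ι := {m // m ∈ G.support})
    (fun m => u ^ (m : Fin 2 →₀ ℕ) 0 * v ^ (m : Fin 2 →₀ ℕ) 1) _
    (fun m => ((coeff (m : Fin 2 →₀ ℕ) G : Mf L K) : AlgebraicClosure K))
    (fun m => mem_algebraicClosure_iff.1 (SetLike.coe_mem _)) (by
      intro hc
      apply hG
      rw [← support_eq_empty]
      by_contra hne
      obtain ⟨m, hm⟩ := Finset.nonempty_iff_ne_empty.2 hne
      have := congrFun hc ⟨m, hm⟩
      exact (mem_support_iff.1 hm) (Subtype.ext this)) (by
      rw [← h0, aeval_def, eval₂_eq', ← Finset.sum_coe_sort G.support]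
      refine Finset.sum_congr rfl fun m _ => ?_
      rw [Fin.prod_univ_two, map_mul, map_pow, map_pow]
      rfl) le_rfl
  refine ⟨∑ m : {m // m ∈ G.support}, monomial (m : Fin 2 →₀ ℕ) (d m), ?_, ?_, ?_⟩
  · intro h
    apply hd
    funext m
    have h1 := congrArg (coeff (m : Fin 2 →₀ ℕ)) h
    rw [coeff_sum, coeff_zero] at h1
    rw [Finset.sum_eq_single m] at h1
    · rw [coeff_monomial, if_pos rfl] at h1
      exact h1
    · intro m' _ hne
      rw [coeff_monomial, if_neg (fun h => hne (Subtype.ext h))]
    · intro h
      exact absurd (Finset.mem_univ _) h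
  · rw [map_sum, ← hrel]
    refine Finset.sum_congr rfl fun m _ => ?_
    rw [aeval_monomial, Finsupp.prod_fintype _ _ (fun i => pow_zero _), Fin.prod_univ_two]
    rfl
  · refine (totalDegree_finsetSum_le fun m _ => ?_)
    refine (totalDegree_monomial_le _ _).trans ?_
    exact le_totalDegree m.2

end Pool.Agent.V7H25.TF
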