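import Pool.Agent.V7H25.TF.Mix

set_option autoImplicit false

/-!
# Toric fibrations of hypersurfaces: linked planes (helper25)
-/

open MvPolynomial Module
open Pool.Agent.Y200.CB Pool.Agent.Y200.CY

namespace Pool.Agent.V7H25.TF

variable {N : ℕ}

/-- the rational span of a lattice -/
lemma exists_int_mul (Λ : Submodule ℤ (Fin N → ℤ)) {y : Fin N → ℚ}
    (hy : y ∈ Submodule.span ℚ (rv '' (Λ : Set (Fin N → ℤ)))) :
    ∃ k : ℤ, k ≠ 0 ∧ ∃ v ∈ Λ, (k : ℚ) • y = rv v := by
  induction hy using Submodule.span_induction with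
  | mem y h =>
    obtain ⟨v, hv, rfl⟩ := h
    exact ⟨1, one_ne_zero, v, hv, by simp⟩
  | zero => exact ⟨1, one_ne_zero, 0, Λ.zero_mem, by ext l; simp [rv]⟩
  | add y z _ _ hy hz =>
    obtain ⟨k, hk, v, hv, h⟩ := hy
    obtain ⟨k', hk', v', hv', h'⟩ := hz
    refine ⟨k * k', mul_ne_zero hk hk', k' • v + k • v', Λ.add_mem (Λ.smul_mem _ hv)
      (Λ.smul_mem _ hv'), ?_⟩
    ext l
    have h1 := congrFun h l
    have h2 := congrFun h' l
    simp only [Pi.smul_apply, smul_eq_mul, rv, Pi.add_apply] at h1 h2 ⊢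
    push_cast
    rw [← h1, ← h2]
    ring
  | smul r y _ hy =>
    obtain ⟨k, hk, v, hv, h⟩ := hy
    refine ⟨k * r.den, mul_ne_zero hk (by exact_mod_cast r.den_ne_zero), r.num • v,
      Λ.smul_mem _ hv, ?_⟩
    ext l
    have h1 := congrFun h l
    simp only [Pi.smul_apply, smul_eq_mul, rv] at h1 ⊢
    push_cast
    rw [← h1]
    have h2 : (r.den : ℚ) * r = r.num := by
      rw [mul_comm]; exact Rat.mul_den_eq_num r
    linear_combination (k : ℚ) * y l * h2

/-- vectors over `K` which are orthogonal to the orthogonal space of a lattice -/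
theorem double_orth {K : Type*} [Field K] [CharZero K] (Λ : Submodule ℤ (Fin N → ℤ))
    (c : Fin N → K) (hc : ∀ μ : Fin N → ℤ, (∀ v ∈ Λ, dot v μ = 0) → ∑ l, (μ l : K) * c l = 0) :
    ∃ (lam : Fin N → Fin N → ℤ) (κ : Fin N → K), (∀ j, lam j ∈ Λ) ∧
      ∀ l, c l = ∑ j, κ j * (lam j l : K) := by
  classical
  set V := Submodule.span ℚ (rv '' (Λ : Set (Fin N → ℤ))) with hV
  obtain ⟨Q, hQ⟩ := exists_isCompl V
  set π := V.projection Q hQ with hπ
  have hcol : ∀ m, π (Pi.single m 1) ∈ V := fun m => Submodule.projection_apply_mem hQ _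
  choose k hk lam hlam hkl using fun m => exists_int_mul Λ (hcol m)
  have hsum : ∀ (y : Fin N → ℚ) (l : Fin N), π y l = ∑ m, π (Pi.single m 1) l * y m := by
    intro y l
    have h1 : y = ∑ m, y m • (Pi.single m (1 : ℚ) : Fin N → ℚ) := by
      ext l
      rw [Finset.sum_apply, Finset.sum_eq_single l]
      · simp
      · intro b _ hb
        rw [Pi.smul_apply, Pi.single_eq_of_ne (Ne.symm hb), smul_zero]
      · simp
    conv_lhs => rw [h1]
    rw [map_sum, Finset.sum_apply]
    refine Finset.sum_congr rfl fun m _ => ?_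
    rw [map_smul, Pi.smul_apply, smul_eq_mul, mul_comm]
  have hkey : ∀ l, c l = ∑ m, ((π (Pi.single m 1) l : ℚ) : K) * c m := by
    intro l
    obtain ⟨d, hd, μ, hμ⟩ := exists_int
      (fun m => (if m = l then 1 else 0) - π (Pi.single m 1) l)
    have h1 : ∀ v ∈ Λ, dot v μ = 0 := by
      intro v hv
      have h2 : π (rv v) = rv v := Submodule.projection_apply_of_mem_left hQ
        (Submodule.subset_span ⟨v, hv, rfl⟩)
      have h3 := hsum (rv v) l
      rw [h2] at h3
      have h4 : ((dot v μ : ℤ) : ℚ) = 0 := by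
        rw [dot, Int.cast_sum]
        have h5 : ∀ m, (((v m * μ m : ℤ)) : ℚ) =
            (d : ℚ) * ((if m = l then rv v m else 0) - π (Pi.single m 1) l * rv v m) := by
          intro m
          have h6 := congrFun hμ m
          simp only [Pi.smul_apply, smul_eq_mul, rv] at h6
          push_cast
          rw [← h6, rv]
          by_cases hml : m = l
          · rw [if_pos hml, if_pos hml]; ring
          · rw [if_neg hml, if_neg hml]; ring
        simp only [h5]
        rw [← Finset.mul_sum, Finset.sum_sub_distrib, ← h3, Finset.sum_ite_eq' Finset.univ l,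
          if_pos (Finset.mem_univ _), sub_self, mul_zero]
      exact_mod_cast h4
    have h7 := hc μ h1
    have h8 : ∀ m, (μ m : K) * c m = (d : K) * ((if m = l then c m else 0) -
        ((π (Pi.single m 1) l : ℚ) : K) * c m) := by
      intro m
      have h6 := congrFun hμ m
      simp only [Pi.smul_apply, smul_eq_mul, rv] at h6
      have h9 : (μ m : K) = (d : K) * (((if m = l then (1 : ℚ) else 0) : ℚ) -
          ((π (Pi.single m 1) l : ℚ) : K)) := by
        have h10 := congrArg (fun q : ℚ => (q : K)) h6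
        push_cast at h10
        rw [← h10]
      rw [h9]
      by_cases hml : m = l
      · rw [if_pos hml, if_pos hml]; push_cast; ring
      · rw [if_neg hml, if_neg hml]; push_cast; ring
    simp only [h8] at h7
    rw [← Finset.mul_sum, Finset.sum_sub_distrib, Finset.sum_ite_eq' Finset.univ l,
      if_pos (Finset.mem_univ _)] at h7
    have hd' : (d : K) ≠ 0 := by exact_mod_cast hd
    exact sub_eq_zero.1 ((mul_eq_zero.1 h7).resolve_left hd')
  refine ⟨lam, fun m => c m / k m, hlam, fun l => ?_⟩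
  rw [hkey l]
  refine Finset.sum_congr rfl fun m _ => ?_
  have h1 := congrFun (hkl m) l
  simp only [Pi.smul_apply, smul_eq_mul, rv] at h1
  have h2 := congrArg (fun q : ℚ => (q : K)) h1
  push_cast at h2
  rw [← h2]
  have h3 : (k m : K) ≠ 0 := by exact_mod_cast hk m
  field_simp

/-- the subspace orthogonal to a lattice -/
def perp (Λ : Submodule ℤ (Fin N → ℤ)) : Submodule ℚ (Fin N → ℚ) := ⨅ v ∈ Λ, hyp v

lemma perp_le {Λ : Submodule ℤ (Fin N → ℤ)} {v : Fin N → ℤ} (hv : v ∈ Λ) : perp Λ ≤ hyp v :=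
  iInf₂_le v hv

lemma mem_perp {Λ : Submodule ℤ (Fin N → ℤ)} {y : Fin N → ℚ} :
    y ∈ perp Λ ↔ ∀ v ∈ Λ, y ∈ hyp v := by
  simp only [perp, Submodule.mem_iInf]

section

variable {Ω K : Type} [Field Ω] [Field K] [Algebra Ω K]
variable {f : MvPolynomial (Fin N) Ω} {x : Fin N → K}

/-- functions killed by the vector fields -/
theorem mem_fld_of_killed [CharZero Ω] (hx : GPt f x) (hfull : Full f)
    {Λ : Submodule ℤ (Fin N → ℤ)} {v₀ : Fin N → ℤ} (hv₀ : v₀ ≠ 0) {z : K}
    (h : ∀ v ∈ Λ, vf hx v v₀ z = 0) : z ∈ fld Ω x (perp Λ) := by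
  classical
  have hcK : CharZero K := charZero_of_injective_algebraMap (algebraMap Ω K).injective
  have hx0 := x_ne_zero hx hfull
  by_contra hz
  set F := IntermediateField.adjoin Ω (monSet x (perp Λ)) with hF
  have htr : Transcendental F z := fun halg => hz (mem_cl.2 halg)
  obtain ⟨E₀, hE₀⟩ := Pool.Agent.Y200.CB.exists_der (L := F) (K := K) (n := 1) (fun _ => z)
    (algebraicIndependent_unique_type_iff.2 htr) (fun _ => 1)
  set E : Derivation Ω K K := E₀.restrictScalars Ω with hE
  have hEz : E z = 1 := hE₀ 0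
  have hEμ : ∀ μ : Fin N → ℤ, rv μ ∈ perp Λ → E (mon x μ) = 0 := by
    intro μ hμ
    exact E₀.map_algebraMap
      (⟨mon x μ, IntermediateField.subset_adjoin _ _ ⟨μ, hμ, rfl⟩⟩ : F)
  obtain ⟨lam, κ, hlam, hκ⟩ := double_orth Λ (fun l => E (x l) / x l) (by
    intro μ hμ
    have h1 : rv μ ∈ perp Λ := mem_perp.2 fun v hv => rv_mem_hyp.2 (hμ v hv)
    have h2 := hEμ μ h1
    rw [der_mon hx0] at h2
    exact (mul_eq_zero.1 h2).resolve_right (mon_ne_zero hx0 μ))
  have hEx : ∀ l, E (x l) = (∑ j, κ j * (lam j l : K)) * x l := by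
    intro l
    rw [← hκ l, div_mul_cancel₀ _ (hx0 l)]
  have hα0 := theta_ne hx hfull hv₀
  set α : (Fin N → ℤ) → K := fun v => aeval x (theta v f) with hα
  have htan : ∑ j, κ j * α (lam j) = 0 := by
    have h0 : aeval x f = 0 := (hx.zero_iff f).2 dvd_rfl
    have h1 : E (aeval x f) = 0 := by rw [h0, map_zero]
    rw [Lie.chain] at h1
    rw [← h1]
    have h2 : ∀ j, κ j * α (lam j) = ∑ l, κ j * ((lam j l : K) * (x l * aeval x (pderiv l f))) := by
      intro j
      rw [← Finset.mul_sum]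
      congr 1
      exact aeval_theta (lam j) f
    simp only [h2]
    rw [Finset.sum_comm]
    refine Finset.sum_congr rfl fun l _ => ?_
    rw [hEx l, Finset.sum_mul, Finset.mul_sum]
    exact Finset.sum_congr rfl fun j _ => by ring
  have hE0 : α v₀ • E = ∑ j, κ j • vf hx (lam j) v₀ := by
    rw [← sub_eq_zero]
    refine Lie.der_zero hx _ fun l => ?_
    have h3 : (∑ j, κ j • vf hx (lam j) v₀) (x l) = ∑ j, κ j * (vf hx (lam j) v₀ (x l)) := by
      rw [← Derivation.coeFnAddMonoidHom_apply, map_sum, Finset.sum_apply]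
      rfl
    rw [Derivation.sub_apply, Derivation.smul_apply, h3, hEx, smul_eq_mul]
    simp only [vf_x]
    have h4 : ∑ j, κ j * ((aeval x (theta v₀ f) * (lam j l : K) -
        aeval x (theta (lam j) f) * (v₀ l : K)) * x l) =
        α v₀ * ((∑ j, κ j * (lam j l : K)) * x l) - (∑ j, κ j * α (lam j)) * ((v₀ l : K) * x l) := by
      rw [Finset.sum_mul, Finset.sum_mul, Finset.mul_sum, ← Finset.sum_sub_distrib]
      exact Finset.sum_congr rfl fun j _ => by simp only [hα]; ring
    rw [h4, htan]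
    ring
  have h5 := congrArg (fun D : Derivation Ω K K => D z) hE0
  simp only [Derivation.smul_apply, hEz, smul_eq_mul, mul_one] at h5
  have h6 : (∑ j, κ j • vf hx (lam j) v₀) z = 0 := by
    rw [← Derivation.coeFnAddMonoidHom_apply, map_sum, Finset.sum_apply]
    refine Finset.sum_eq_zero fun j _ => ?_
    rw [Derivation.coeFnAddMonoidHom_apply, Derivation.smul_apply, h _ (hlam j), smul_zero]
  rw [h6] at h5
  exact hα0 h5

end

/-- The lattices which are linked by the planes spanned by `a i`, `b i`: the planes, the sum of two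
linked lattices with nonzero intersection, and the sum of two linked lattices `A`, `B` for which
`mixed f v v' w w'` is not divisible by `f` for some `v`, `v'` in `A` and `w`, `w'` in `B`. -/
inductive Linked {k : Type*} [CommRing k] {m : ℕ} (f : MvPolynomial (Fin N) k)
    (a b : Fin m → Fin N → ℤ) : Submodule ℤ (Fin N → ℤ) → Prop
  | plane (i : Fin m) : Linked f a b (Submodule.span ℤ {a i, b i})
  | meet {A B : Submodule ℤ (Fin N → ℤ)} : Linked f a b A → Linked f a b B → A ⊓ B ≠ ⊥ →
      Linked f a b (A ⊔ B)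
  | mixed {A B : Submodule ℤ (Fin N → ℤ)} {v v' w w' : Fin N → ℤ} : Linked f a b A →
      Linked f a b B → v ∈ A → v' ∈ A → w ∈ B → w' ∈ B → ¬ f ∣ mixed f v v' w w' →
      Linked f a b (A ⊔ B)

section

variable {Ω K : Type} [Field Ω] [Field K] [Algebra Ω K]
variable {f : MvPolynomial (Fin N) Ω} {x : Fin N → K}

lemma vf_add_left (hx : GPt f x) (v v' w : Fin N → ℤ) (z : K) :
    vf hx (v + v') w z = vf hx v w z + vf hx v' w z := by
  have h : vf hx (v + v') w - (vf hx v w + vf hx v' w) = 0 := by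
    refine Lie.der_zero hx _ fun l => ?_
    rw [Derivation.sub_apply, Derivation.add_apply, vf_x, vf_x, vf_x, aeval_theta (x := x) (v + v'),
      aeval_theta (x := x) v, aeval_theta (x := x) v']
    have h1 : ∑ l, (((v + v') l : ℤ) : K) * (x l * aeval x (pderiv l f)) =
        ∑ l, ((v l : ℤ) : K) * (x l * aeval x (pderiv l f)) +
          ∑ l, ((v' l : ℤ) : K) * (x l * aeval x (pderiv l f)) := by
      rw [← Finset.sum_add_distrib]
      refine Finset.sum_congr rfl fun l _ => ?_
      rw [Pi.add_apply]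
      push_cast
      ring
    rw [h1, Pi.add_apply]
    push_cast
    ring
  have h2 := congrArg (fun D : Derivation Ω K K => D z) h
  simp only [Derivation.sub_apply, Derivation.add_apply] at h2
  exact sub_eq_zero.1 h2

lemma vf_swap (hx : GPt f x) (v w : Fin N → ℤ) (z : K) : vf hx v w z = - vf hx w v z := by
  have h : vf hx v w + vf hx w v = 0 := by
    refine Lie.der_zero hx _ fun l => ?_
    rw [Derivation.add_apply, vf_x, vf_x]
    ring
  have h2 := congrArg (fun D : Derivation Ω K K => D z) h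
  simp only [Derivation.add_apply] at h2
  exact eq_neg_of_add_eq_zero_left h2

lemma mixed_ne_zero_left {v v' w w' : Fin N → ℤ} (h : ¬ f ∣ mixed f v v' w w') : w ≠ 0 := by
  rintro rfl
  apply h
  rw [mixed, theta_zero]
  have h1 : ∀ u : Fin N → ℤ, theta u (0 : MvPolynomial (Fin N) Ω) = 0 := by
    intro u
    simp [theta]
  rw [h1, h1]
  simp

/-- **Invariant functions.** -/
theorem inv_linked [CharZero Ω] (hx : GPt f x) (hfull : Full f) {m : ℕ}
    {a b : Fin m → Fin N → ℤ} {Λ : Submodule ℤ (Fin N → ℤ)} (h : Linked f a b Λ) {z : K}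
    (hz : ∀ i, z ∈ fld Ω x (orth (a i) (b i))) : z ∈ fld Ω x (perp Λ) := by
  have hx0 := x_ne_zero hx hfull
  induction h with
  | plane i =>
    refine fld_mono ?_ (hz i)
    intro y hy
    rw [mem_perp]
    intro v hv
    obtain ⟨c, d, rfl⟩ := Submodule.mem_span_pair.1 hv
    exact orth_le_hyp _ _ _ _ hy
  | @meet A B _ _ hAB ihA ihB =>
    obtain ⟨v, hv, hv0⟩ := Submodule.exists_mem_ne_zero_of_ne_bot hAB
    have h1 := fld_inf hx hfull hv0 (perp_le hv.1) (perp_le hv.2) ihA ihB
    refine fld_mono ?_ h1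
    rintro y ⟨h2, h3⟩
    rw [mem_perp]
    intro w hw
    obtain ⟨u, hu, u', hu', rfl⟩ := Submodule.mem_sup.1 hw
    have h4 := mem_hyp.1 (mem_perp.1 h2 u hu)
    have h5 := mem_hyp.1 (mem_perp.1 h3 u' hu')
    rw [mem_hyp]
    simp only [Pi.add_apply]
    push_cast
    simp only [add_mul, Finset.sum_add_distrib]
    rw [h4, h5, add_zero]
  | @mixed A B v v' w w' _ _ hv hv' hw hw' hm ihA ihB =>
    have hA : ∀ u ∈ A, ∀ u' ∈ A, vf hx u u' z = 0 := fun u hu u' hu' =>
      vf_fld hx hx0 (perp_le hu) (perp_le hu') ihA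
    have hB : ∀ u ∈ B, ∀ u' ∈ B, vf hx u u' z = 0 := fun u hu u' hu' =>
      vf_fld hx hx0 (perp_le hu) (perp_le hu') ihB
    have hAB : ∀ u ∈ A, ∀ u' ∈ B, vf hx u u' z = 0 := fun u hu u' hu' =>
      vf_mixed hx (hA u hu v hv) (hA u hu v' hv') (hB u' hu' w hw) (hB u' hu' w' hw')
        (hA v hv v' hv') (hB w hw w' hw') hm
    refine mem_fld_of_killed hx hfull (mixed_ne_zero_left hm) fun u hu => ?_
    obtain ⟨u₁, hu₁, u₂, hu₂, rfl⟩ := Submodule.mem_sup.1 hu
    rw [vf_add_left, hAB u₁ hu₁ w hw, hB u₂ hu₂ w hw, add_zero]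

/-- the invariant functions are algebraic -/
theorem inv_linked_alg [CharZero Ω] (hx : GPt f x) (hfull : Full f) {m : ℕ}
    {a b : Fin m → Fin N → ℤ} {Λ : Submodule ℤ (Fin N → ℤ)} (h : Linked f a b Λ)
    (hspan : ∀ μ : Fin N → ℤ, (∀ v ∈ Λ, dot v μ = 0) → μ = 0) {z : K}
    (hz : ∀ i, IsAlgebraic (fld Ω x (orth (a i) (b i))) z) : IsAlgebraic Ω z := by
  have h1 := inv_linked hx hfull h fun i => fld_closed _ (hz i)
  have h2 : perp Λ = ⊥ := by
    rw [eq_bot_iff]
    intro y hy
    obtain ⟨k, hk, μ, hμ⟩ := exists_int y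
    have h2 : μ = 0 := by
      apply hspan
      intro v hv
      have h4 : rv μ ∈ perp Λ := by
        rw [← hμ]
        exact Submodule.smul_mem _ _ hy
      exact rv_mem_hyp.1 (perp_le hv h4)
    rw [h2] at hμ
    have h5 : (k : ℚ) ≠ 0 := by exact_mod_cast hk
    have h6 : rv (0 : Fin N → ℤ) = 0 := by
      ext l
      simp [rv]
    rw [h6] at hμ
    rw [Submodule.mem_bot]
    exact (smul_eq_zero.1 hμ).resolve_left h5
  rw [h2] at h1
  have h3 : fld Ω x ⊥ ≤ cl Ω (∅ : Set K) := by
    refine cl_le_cl ?_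
    rintro _ ⟨μ, hμ, rfl⟩
    have h2 : μ = 0 := by
      ext l
      have := congrFun ((Submodule.mem_bot ℚ).1 hμ) l
      rw [rv, Pi.zero_apply] at this
      exact_mod_cast this
    rw [h2, mon_zero]
    exact one_mem _
  have h4 := h3 h1
  rw [mem_cl, IntermediateField.adjoin_empty] at h4
  exact IsAlgebraic.restrictScalars Ω h4

/-- no invariant functions -/
theorem inv_linked_const [IsAlgClosed Ω] [CharZero Ω] (hx : GPt f x) (hfull : Full f) {m : ℕ}
    {a b : Fin m → Fin N → ℤ} {Λ : Submodule ℤ (Fin N → ℤ)} (h : Linked f a b Λ)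
    (hspan : ∀ μ : Fin N → ℤ, (∀ v ∈ Λ, dot v μ = 0) → μ = 0) {z : K}
    (hz : ∀ i, IsAlgebraic (fld Ω x (orth (a i) (b i))) z) :
    z ∈ Set.range (algebraMap Ω K) :=
  minpoly.mem_range_of_degree_eq_one Ω z (IsAlgClosed.degree_eq_one_of_irreducible Ω
    (minpoly.irreducible (inv_linked_alg hx hfull h hspan hz).isIntegral))

/-- base change of links -/
lemma Linked.map {k k' : Type} [Field k] [Field k'] [Algebra k k'] {m : ℕ}
    {f : MvPolynomial (Fin N) k} {a b : Fin m → Fin N → ℤ} {Λ : Submodule ℤ (Fin N → ℤ)}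
    (h : Linked f a b Λ) : Linked (MvPolynomial.map (algebraMap k k') f) a b Λ := by
  induction h with
  | plane i => exact Linked.plane i
  | meet _ _ h1 ihA ihB => exact Linked.meet ihA ihB h1
  | mixed _ _ hv hv' hw hw' hm ihA ihB =>
    refine Linked.mixed ihA ihB hv hv' hw hw' fun h => hm ?_
    rw [mixed_map] at h
    exact Pool.Agent.W572.G.dvd_descent (S := k') _ _ h

end

end Pool.Agent.V7H25.TF
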