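import Pool.Agent.V7H25.TF.Inv
import Pool.Agent.Y200.CY.FinalF

set_option autoImplicit false

/-!
# Toric fibrations of hypersurfaces: mixed derivatives (helper25)
-/

open MvPolynomial Module
open Pool.Agent.Y200.CB Pool.Agent.Y200.CY

namespace Pool.Agent.V7H25.TF

/-- the invariant vector field of the torus in the direction `v` -/
noncomputable def theta {k : Type*} [CommRing k] {N : ℕ} (v : Fin N → ℤ)
    (g : MvPolynomial (Fin N) k) : MvPolynomial (Fin N) k := ∑ l, v l • (X l * pderiv l g)

/-- the numerator of the derivative of the slope in the plane of `b`, `b'` along the fibres of the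
plane of `a`, `a'` -/
noncomputable def mixed {k : Type*} [CommRing k] {N : ℕ} (f : MvPolynomial (Fin N) k)
    (a a' b b' : Fin N → ℤ) : MvPolynomial (Fin N) k :=
  (theta a' f * theta a (theta b' f) - theta a f * theta a' (theta b' f)) * theta b f -
    (theta a' f * theta a (theta b f) - theta a f * theta a' (theta b f)) * theta b' f

section

variable {k : Type*} [CommRing k] {N : ℕ}

lemma theta_zero (g : MvPolynomial (Fin N) k) : theta 0 g = 0 := by simp [theta]

lemma theta_monomial (v : Fin N → ℤ) (m : Fin N →₀ ℕ) (c : k) :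
    theta v (monomial m c) = monomial m ((dot v (ev m) : k) * c) := by
  rw [theta]
  simp only [X_mul_pderiv_monomial]
  rw [dot, Int.cast_sum, Finset.sum_mul, map_sum]
  refine Finset.sum_congr rfl fun l _ => ?_
  rw [← natCast_zsmul, smul_smul, ← map_zsmul]
  congr 1
  rw [zsmul_eq_mul, ev]

lemma theta_eq (v : Fin N → ℤ) (f : MvPolynomial (Fin N) k) :
    theta v f = ∑ m ∈ f.support, monomial m ((dot v (ev m) : k) * coeff m f) := by
  conv_lhs => rw [f.as_sum]
  rw [theta]
  simp only [map_sum, Finset.mul_sum, Finset.smul_sum]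
  rw [Finset.sum_comm]
  refine Finset.sum_congr rfl fun m _ => ?_
  exact theta_monomial v m _

lemma coeff_theta (v : Fin N → ℤ) (f : MvPolynomial (Fin N) k) (m : Fin N →₀ ℕ) :
    coeff m (theta v f) = (dot v (ev m) : k) * coeff m f := by
  classical
  rw [theta_eq, coeff_sum]
  simp only [coeff_monomial]
  rw [Finset.sum_eq_single m]
  · rw [if_pos rfl]
  · intro b _ hb
    rw [if_neg hb]
  · intro h
    rw [if_pos rfl, MvPolynomial.notMem_support_iff.1 h, mul_zero]

lemma theta_map {k' : Type*} [CommRing k'] (φ : k →+* k') (v : Fin N → ℤ)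
    (f : MvPolynomial (Fin N) k) : theta v (map φ f) = map φ (theta v f) := by
  ext m
  rw [coeff_theta, coeff_map, coeff_map, coeff_theta, map_mul, map_intCast]

lemma mixed_map {k' : Type*} [CommRing k'] (φ : k →+* k') (f : MvPolynomial (Fin N) k)
    (a a' b b' : Fin N → ℤ) : mixed (map φ f) a a' b b' = map φ (mixed f a a' b b') := by
  simp only [mixed, theta_map, map_sub, map_mul]

end

section

variable {Ω K : Type} [Field Ω] [Field K] [Algebra Ω K] {N : ℕ}
variable {f : MvPolynomial (Fin N) Ω} {x : Fin N → K}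

lemma aeval_theta (v : Fin N → ℤ) (g : MvPolynomial (Fin N) Ω) :
    aeval x (theta v g) = ∑ l, (v l : K) * (x l * aeval x (pderiv l g)) := by
  rw [theta, map_sum]
  refine Finset.sum_congr rfl fun l _ => ?_
  rw [map_zsmul, map_mul, aeval_X, zsmul_eq_mul]

/-- nonvanishing -/
theorem theta_ne [CharZero Ω] (hx : GPt f x) (hfull : Full f) {v : Fin N → ℤ} (hv : v ≠ 0) :
    aeval x (theta v f) ≠ 0 := by
  classical
  intro h0
  obtain ⟨G, hG⟩ := (hx.zero_iff _).1 h0
  obtain ⟨m, hm, m', hm', hne⟩ := hfull v hv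
  have hf0 : f ≠ 0 := by
    rintro rfl
    simp at hm
  have hG' : ∃ c : Ω, G = C c := by
    by_cases hG0 : G = 0
    · exact ⟨0, by rw [hG0, C_0]⟩
    · have hdeg : (theta v f).totalDegree ≤ f.totalDegree := by
        rw [totalDegree, totalDegree]
        refine Finset.sup_mono fun n hn => ?_
        rw [MvPolynomial.mem_support_iff, coeff_theta] at hn
        exact MvPolynomial.mem_support_iff.2 (right_ne_zero_of_mul hn)
      rw [hG, totalDegree_mul_of_isDomain hf0 hG0] at hdeg
      have h1 : G.totalDegree = 0 := by omega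
      rw [totalDegree_eq_zero_iff_eq_C] at h1
      exact ⟨_, h1⟩
  obtain ⟨c, rfl⟩ := hG'
  have key : ∀ n ∈ f.support, (dot v (ev n) : Ω) = c := by
    intro n hn
    have h1 := congrArg (coeff n) hG
    rw [coeff_theta, mul_comm f, coeff_C_mul] at h1
    exact mul_right_cancel₀ (MvPolynomial.mem_support_iff.1 hn) h1
  have h2 := (key m hm).trans (key m' hm').symm
  exact hne (by exact_mod_cast h2)

theorem exists_vf (hx : GPt f x) (v w : Fin N → ℤ) : ∃ D : Derivation Ω K K, ∀ l,
    D (x l) = (aeval x (theta w f) * v l - aeval x (theta v f) * w l) * x l := by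
  refine Sym.exists_der (Sym.fractions hx) _ ?_
  intro P hP
  obtain ⟨G, rfl⟩ := (hx.zero_iff P).1 hP
  have h0 : aeval x f = 0 := (hx.zero_iff f).2 dvd_rfl
  have h1 : ∀ l, aeval x (pderiv l (f * G)) = aeval x G * aeval x (pderiv l f) := by
    intro l
    rw [Derivation.leibniz, map_add, smul_eq_mul, smul_eq_mul, map_mul, map_mul, h0, zero_mul,
      zero_add]
  have h2 : ∑ l, aeval x (pderiv l (f * G)) *
      ((aeval x (theta w f) * v l - aeval x (theta v f) * w l) * x l) =
      aeval x G * (aeval x (theta w f) * aeval x (theta v f) -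
        aeval x (theta v f) * aeval x (theta w f)) := by
    conv_rhs => rw [aeval_theta (x := x) v f, aeval_theta (x := x) w f]
    conv_lhs => rw [aeval_theta (x := x) v f, aeval_theta (x := x) w f]
    rw [Finset.mul_sum, Finset.mul_sum, ← Finset.sum_sub_distrib, Finset.mul_sum]
    refine Finset.sum_congr rfl fun l _ => ?_
    rw [h1]
    ring
  rw [h2]
  ring

/-- the vector field tangent to the fibres -/
noncomputable def vf (hx : GPt f x) (v w : Fin N → ℤ) : Derivation Ω K K :=
  (exists_vf hx v w).choose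

lemma vf_x (hx : GPt f x) (v w : Fin N → ℤ) (l : Fin N) : vf hx v w (x l) =
    (aeval x (theta w f) * v l - aeval x (theta v f) * w l) * x l :=
  (exists_vf hx v w).choose_spec l

lemma vf_aeval (hx : GPt f x) (v w : Fin N → ℤ) (g : MvPolynomial (Fin N) Ω) :
    vf hx v w (aeval x g) = aeval x (theta w f) * aeval x (theta v g) -
      aeval x (theta v f) * aeval x (theta w g) := by
  rw [Lie.chain, aeval_theta (x := x) v g, aeval_theta (x := x) w g, Finset.mul_sum,
    Finset.mul_sum, ← Finset.sum_sub_distrib]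
  refine Finset.sum_congr rfl fun l _ => ?_
  rw [vf_x]
  ring

/-- derivatives of monomials -/
lemma der_mon (hx0 : ∀ l, x l ≠ 0) (E : Derivation Ω K K) (μ : Fin N → ℤ) :
    E (mon x μ) = (∑ l, (μ l : K) * (E (x l) / x l)) * mon x μ := by
  classical
  have key : ∀ s : Finset (Fin N), E (∏ l ∈ s, x l ^ μ l) =
      (∑ l ∈ s, (μ l : K) * (E (x l) / x l)) * ∏ l ∈ s, x l ^ μ l := by
    intro s
    induction s using Finset.induction_on with
    | empty => simp
    | insert i s hi ih =>
      rw [Finset.prod_insert hi, Finset.sum_insert hi, E.leibniz, ih, E.leibniz_zpow]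
      have h1 : x i ^ μ i = x i ^ (μ i - 1) * x i := by
        rw [← zpow_add_one₀ (hx0 i), sub_add_cancel]
      rw [h1]
      simp only [smul_eq_mul, zsmul_eq_mul]
      have := hx0 i
      field_simp
      ring
  exact key Finset.univ

lemma vf_mon (hx : GPt f x) (hx0 : ∀ l, x l ≠ 0) (v w μ : Fin N → ℤ) : vf hx v w (mon x μ) =
    (aeval x (theta w f) * dot v μ - aeval x (theta v f) * dot w μ) * mon x μ := by
  rw [der_mon hx0]
  congr 1
  rw [dot, dot, Int.cast_sum, Int.cast_sum, Finset.mul_sum, Finset.mul_sum,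
    ← Finset.sum_sub_distrib]
  refine Finset.sum_congr rfl fun l _ => ?_
  rw [vf_x, mul_div_assoc, div_self (hx0 l)]
  push_cast
  ring

/-- the vector fields kill the invariant functions -/
lemma vf_fld [CharZero Ω] (hx : GPt f x) (hx0 : ∀ l, x l ≠ 0) {v w : Fin N → ℤ}
    {W : Submodule ℚ (Fin N → ℚ)} (hv : W ≤ hyp v) (hw : W ≤ hyp w) {z : K}
    (hz : z ∈ fld Ω x W) : vf hx v w z = 0 := by
  refine der_cl _ ?_ hz
  rintro _ ⟨μ, hμ, rfl⟩
  rw [vf_mon hx hx0, rv_mem_hyp.1 (hv hμ), rv_mem_hyp.1 (hw hμ)]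
  simp

/-- **Mixed derivatives.** -/
theorem vf_mixed (hx : GPt f x) {v w a a' b b' : Fin N → ℤ} {z : K}
    (h1 : vf hx v a z = 0) (h2 : vf hx v a' z = 0) (h3 : vf hx w b z = 0)
    (h4 : vf hx w b' z = 0) (h5 : vf hx a a' z = 0) (h6 : vf hx b b' z = 0)
    (hm : ¬ f ∣ mixed f a a' b b') : vf hx v w z = 0 := by
  set D1 := vf hx a a' with hD1
  set D2 := vf hx b b' with hD2
  set α : (Fin N → ℤ) → K := fun v => aeval x (theta v f) with hα
  set g := D1 (α b') * α b - D1 (α b) * α b' with hg
  have hg0 : g ≠ 0 := by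
    rw [Ne, hg, hα]
    simp only
    rw [hD1, vf_aeval, vf_aeval]
    intro h0
    apply hm
    rw [← hx.zero_iff, mixed]
    simp only [map_sub, map_mul]
    exact h0
  have hbr : ∀ l, ⁅D1, D2⁆ (x l) = (D1 (α b') * b l - D1 (α b) * b' l - D2 (α a') * a l +
      D2 (α a) * a' l) * x l := by
    intro l
    rw [Derivation.commutator_apply, hD1, hD2, vf_x, vf_x, ← hD1, ← hD2]
    simp only [Derivation.leibniz, map_sub, smul_eq_mul, Derivation.map_intCast, mul_zero,
      zero_add]
    rw [hD1, hD2, vf_x, vf_x]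
    simp only [hα]
    ring
  have hgg : g = D2 (α a') * α a - D2 (α a) * α a' := by
    have h0 : aeval x f = 0 := (hx.zero_iff f).2 dvd_rfl
    have h7 : ⁅D1, D2⁆ (aeval x f) = 0 := by rw [h0, map_zero]
    rw [Lie.chain] at h7
    have h8 : ∑ l, aeval x (pderiv l f) * ⁅D1, D2⁆ (x l) =
        D1 (α b') * α b - D1 (α b) * α b' - D2 (α a') * α a + D2 (α a) * α a' := by
      simp only [hbr]
      have hα' : ∀ v, α v = ∑ l, (v l : K) * (x l * aeval x (pderiv l f)) :=
        fun v => aeval_theta v f
      generalize D1 (α b') = p1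
      generalize D1 (α b) = p2
      generalize D2 (α a') = p3
      generalize D2 (α a) = p4
      rw [hα' b, hα' b', hα' a, hα' a', Finset.mul_sum, Finset.mul_sum, Finset.mul_sum,
        Finset.mul_sum, ← Finset.sum_sub_distrib, ← Finset.sum_sub_distrib,
        ← Finset.sum_add_distrib]
      exact Finset.sum_congr rfl fun l _ => by ring
    rw [h8] at h7
    rw [hg]
    linear_combination h7
  set E : Derivation Ω K K := g • vf hx v w - (α w • (D2 (α a') • vf hx v a - D2 (α a) • vf hx v a')
    - α v • (D1 (α b') • vf hx w b - D1 (α b) • vf hx w b') - (α v * α w) • ⁅D1, D2⁆) with hE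
  have hE0 : E = 0 := by
    refine Lie.der_zero hx E fun l => ?_
    rw [hE]
    simp only [Derivation.sub_apply, Derivation.smul_apply, smul_eq_mul, vf_x, hbr]
    have e : ∀ v, aeval x (theta v f) = α v := fun _ => rfl
    simp only [e]
    linear_combination (α w * v l * x l) * hgg - (α v * w l * x l) * hg
  have h9 : E z = 0 := by rw [hE0]; rfl
  rw [hE] at h9
  simp only [Derivation.sub_apply, Derivation.smul_apply, smul_eq_mul, h1, h2, h3, h4,
    Derivation.commutator_apply, h5, h6, map_zero, mul_zero, sub_zero] at h9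
  exact (mul_eq_zero.1 h9).resolve_left hg0

end

end Pool.Agent.V7H25.TF
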