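import Mathlib
import Pool.Agent.Y200.CY.Stm4
import Pool.Agent.Y200.CY.Ker

set_option autoImplicit false

/-!
# Toric fibrations of hypersurfaces: fields generated by monomials (helper25)
-/

open MvPolynomial Module
open Pool.Agent.Y200.CB Pool.Agent.Y200.CY

namespace Pool.Agent.V7H25.TF

variable {Ω K : Type} [Field Ω] [Field K] [Algebra Ω K] {N : ℕ}

/-- the monomial `x ^ μ` -/
def mon (x : Fin N → K) (μ : Fin N → ℤ) : K := ∏ l, x l ^ μ l

/-- the rational vector of an integer vector -/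
def rv (μ : Fin N → ℤ) : Fin N → ℚ := fun l => (μ l : ℚ)

/-- the exponent of a monomial -/
def ev (m : Fin N →₀ ℕ) : Fin N → ℤ := fun l => (m l : ℤ)

section mon

variable {x : Fin N → K}

lemma mon_zero : mon x 0 = 1 := by simp [mon]

lemma mon_ne_zero (hx : ∀ l, x l ≠ 0) (μ : Fin N → ℤ) : mon x μ ≠ 0 :=
  Finset.prod_ne_zero_iff.2 fun l _ => zpow_ne_zero _ (hx l)

lemma mon_add (hx : ∀ l, x l ≠ 0) (μ ν : Fin N → ℤ) : mon x (μ + ν) = mon x μ * mon x ν := by
  rw [mon, mon, mon, ← Finset.prod_mul_distrib]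
  exact Finset.prod_congr rfl fun l _ => by rw [Pi.add_apply, zpow_add₀ (hx l)]

lemma mon_smul (n : ℤ) (μ : Fin N → ℤ) : mon x (n • μ) = mon x μ ^ n := by
  rw [mon, mon, ← Finset.prod_zpow]
  exact Finset.prod_congr rfl fun l _ => by
    rw [Pi.smul_apply, smul_eq_mul, mul_comm, zpow_mul]

lemma mon_neg (μ : Fin N → ℤ) : mon x (-μ) = (mon x μ)⁻¹ := by
  rw [mon, mon, ← Finset.prod_inv_distrib]
  exact Finset.prod_congr rfl fun l _ => by rw [Pi.neg_apply, zpow_neg]

lemma mon_sub (hx : ∀ l, x l ≠ 0) (μ ν : Fin N → ℤ) : mon x (μ - ν) = mon x μ / mon x ν := by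
  rw [sub_eq_add_neg, mon_add hx, mon_neg, div_eq_mul_inv]

lemma mon_ev (m : Fin N →₀ ℕ) : mon x (ev m) = ∏ l, x l ^ m l := by
  rw [mon]
  exact Finset.prod_congr rfl fun l _ => by rw [ev, zpow_natCast]

lemma mon_single (l : Fin N) : mon x (Pi.single l 1) = x l := by
  rw [mon, Finset.prod_eq_single l]
  · simp
  · intro b _ hb
    rw [Pi.single_eq_of_ne hb, zpow_zero]
  · simp

lemma aeval_eq (f : MvPolynomial (Fin N) Ω) :
    aeval x f = ∑ m ∈ f.support, algebraMap Ω K (coeff m f) * mon x (ev m) := by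
  rw [aeval_def, eval₂_eq']
  exact Finset.sum_congr rfl fun m _ => by rw [mon_ev]

end mon

/-- the exponents, up to multiples, of the monomials in a field -/
def expo {x : Fin N → K} (hx : ∀ l, x l ≠ 0) (C : IntermediateField Ω K) :
    Submodule ℚ (Fin N → ℚ) where
  carrier := {q | ∃ k : ℤ, k ≠ 0 ∧ ∃ μ : Fin N → ℤ, (k : ℚ) • q = rv μ ∧ mon x μ ∈ C}
  zero_mem' := ⟨1, one_ne_zero, 0, by ext l; simp [rv], by rw [mon_zero]; exact one_mem _⟩
  add_mem' := by
    rintro q r ⟨k, hk, μ, hμ, h⟩ ⟨k', hk', μ', hμ', h'⟩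
    refine ⟨k * k', mul_ne_zero hk hk', k' • μ + k • μ', ?_, ?_⟩
    · ext l
      have h1 := congrFun hμ l
      have h2 := congrFun hμ' l
      simp only [Pi.smul_apply, smul_eq_mul, rv, Pi.add_apply] at h1 h2 ⊢
      push_cast
      rw [← h1, ← h2]
      ring
    · rw [mon_add hx, mon_smul, mon_smul]
      exact mul_mem (zpow_mem h _) (zpow_mem h' _)
  smul_mem' := by
    rintro r q ⟨k, hk, μ, hμ, h⟩
    refine ⟨k * r.den, mul_ne_zero hk (by exact_mod_cast r.den_ne_zero), r.num • μ, ?_, ?_⟩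
    · ext l
      have h1 := congrFun hμ l
      simp only [Pi.smul_apply, smul_eq_mul, rv] at h1 ⊢
      push_cast
      rw [← h1]
      have h2 : (r.den : ℚ) * r = r.num := by
        rw [mul_comm]; exact Rat.mul_den_eq_num r
      linear_combination (k : ℚ) * q l * h2
    · rw [mon_smul]
      exact zpow_mem h _

lemma rv_mem_expo {x : Fin N → K} (hx : ∀ l, x l ≠ 0) {C : IntermediateField Ω K}
    (hC : ∀ z : K, IsAlgebraic C z → z ∈ C) (μ : Fin N → ℤ) :
    rv μ ∈ expo hx C ↔ mon x μ ∈ C := by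
  constructor
  · rintro ⟨k, hk, ν, hν, h⟩
    have h1 : ν = k • μ := by
      ext l
      have := congrFun hν l
      simp only [Pi.smul_apply, smul_eq_mul, rv] at this
      have h2 : ((k * μ l : ℤ) : ℚ) = ((ν l : ℤ) : ℚ) := by push_cast; exact this
      rw [Pi.smul_apply, smul_eq_mul]
      exact_mod_cast h2.symm
    rw [h1, mon_smul] at h
    apply hC
    -- a power is in the field
    rcases Int.natAbs_eq k with hk' | hk'
    · rw [hk', zpow_natCast] at h
      exact IsAlgebraic.of_pow (n := k.natAbs) (by omega)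
        (isAlgebraic_algebraMap (⟨_, h⟩ : C))
    · rw [hk', zpow_neg, zpow_natCast] at h
      have h2 := inv_mem h
      rw [inv_inv] at h2
      exact IsAlgebraic.of_pow (n := k.natAbs) (by omega)
        (isAlgebraic_algebraMap (⟨_, h2⟩ : C))
  · intro h
    exact ⟨1, one_ne_zero, μ, by simp, h⟩

/-- a common denominator -/
lemma exists_int (q : Fin N → ℚ) : ∃ k : ℤ, k ≠ 0 ∧ ∃ μ : Fin N → ℤ, (k : ℚ) • q = rv μ := by
  refine ⟨∏ l, ((q l).den : ℤ), Finset.prod_ne_zero_iff.2 fun l _ => by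
    exact_mod_cast (q l).den_ne_zero, fun l => (∏ i ∈ Finset.univ.erase l, ((q i).den : ℤ)) *
      (q l).num, ?_⟩
  ext l
  rw [Pi.smul_apply, smul_eq_mul, rv]
  rw [← Finset.mul_prod_erase Finset.univ _ (Finset.mem_univ l)]
  push_cast
  have h2 : ((q l).den : ℚ) * q l = (q l).num := by
    rw [mul_comm]; exact Rat.mul_den_eq_num (q l)
  linear_combination (∏ i ∈ Finset.univ.erase l, ((q i).den : ℚ)) * h2

/-- the monomials with exponents in a subspace -/
def monSet (x : Fin N → K) (W : Submodule ℚ (Fin N → ℚ)) : Set K :=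
  {z | ∃ μ : Fin N → ℤ, rv μ ∈ W ∧ z = mon x μ}

/-- the algebraic closure of the field generated by the monomials with exponents in a subspace -/
noncomputable def fld (Ω : Type) {K : Type} [Field Ω] [Field K] [Algebra Ω K] {N : ℕ}
    (x : Fin N → K) (W : Submodule ℚ (Fin N → ℚ)) : IntermediateField Ω K := cl Ω (monSet x W)

lemma fld_closed {x : Fin N → K} {W : Submodule ℚ (Fin N → ℚ)} (z : K)
    (hz : IsAlgebraic (fld Ω x W) z) : z ∈ fld Ω x W := mem_cl_of_isAlgebraic hz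

lemma mon_mem_fld {x : Fin N → K} {W : Submodule ℚ (Fin N → ℚ)} {μ : Fin N → ℤ}
    (h : rv μ ∈ W) : mon x μ ∈ fld Ω x W := subset_cl _ ⟨μ, h, rfl⟩

lemma fld_le {x : Fin N → K} (hx : ∀ l, x l ≠ 0) {W : Submodule ℚ (Fin N → ℚ)}
    {C : IntermediateField Ω K} (hC : ∀ z : K, IsAlgebraic C z → z ∈ C)
    (hW : W ≤ expo hx C) : fld Ω x W ≤ C := by
  refine cl_le ?_ hC
  rintro _ ⟨μ, hμ, rfl⟩
  exact (rv_mem_expo hx hC μ).1 (hW hμ)

lemma fld_mono {x : Fin N → K} {W W' : Submodule ℚ (Fin N → ℚ)} (h : W ≤ W') :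
    fld Ω x W ≤ fld Ω x W' := by
  refine cl_le_cl ?_
  rintro _ ⟨μ, hμ, rfl⟩
  exact mon_mem_fld (h hμ)

lemma fld_le_span {x : Fin N → K} (hx : ∀ l, x l ≠ 0) {ι : Type} (e : ι → Fin N → ℤ)
    {W : Submodule ℚ (Fin N → ℚ)} (hW : W ≤ Submodule.span ℚ (Set.range fun i => rv (e i))) :
    fld Ω x W ≤ cl Ω (Set.range fun i => mon x (e i)) := by
  refine fld_le hx (fun z hz => mem_cl_of_isAlgebraic hz) (hW.trans ?_)
  rw [Submodule.span_le]
  rintro _ ⟨i, rfl⟩
  exact (rv_mem_expo hx (fun z hz => mem_cl_of_isAlgebraic hz) _).2 (subset_cl _ ⟨i, rfl⟩)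

end Pool.Agent.V7H25.TF
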