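import Pool.Agent.V7H25.TF.Sc

set_option autoImplicit false

/-!
# Toric fibrations of hypersurfaces: specialness (helper25)
-/

open FF MvPolynomial Pool.Agent.W602.GT Pool.Agent.Y742.SP Pool.Agent.Y742.GG Pool.Agent.Y200.CY

namespace Pool.Agent.V7H25.TF

variable {Ω K : Type} [Field Ω] [Field K] [Algebra Ω K]

/-- the fibration in curves over `L` has a good vertical vector field -/
def HasGood (L : IntermediateField Ω K) : Prop :=
  IsCurve L ∧ ∃ D : Derivation Ω K K, D ≠ 0 ∧ (∀ a ∈ L, D a = 0) ∧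
    ∀ P : Place Ω K, TrivOn P L → GoodAt P L D

lemma good_of_dcl [CharZero Ω] {L : IntermediateField Ω K} (h : DCL L) : HasGood L :=
  Pool.Agent.Y37.SP.sDouble sGoodAll Ω K L h

/-- **Plane cubics**, singular or not, have a good vector field. -/
theorem good_of_cubAt [CharZero Ω] {L : IntermediateField Ω K}
    (hcl : ∀ z : K, IsAlgebraic L z → z ∈ L) (h : CubAt L) {t : K} (ht : Transcendental L t)
    (hb : ∀ b : K, IsAlgebraic (IntermediateField.adjoin L {t}) b) : HasGood L := by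
  classical
  obtain ⟨c, u, v, hker, hev, h2, -, hdeg, hgen⟩ := h
  by_cases hs : SmoAll c
  · exact smooth_good hs hev h2 hgen ht hb
  have hcL : CharZero L := charZero_of_injective_algebraMap (algebraMap Ω L).injective
  have hcl' : ∀ z : K, IsAlgebraic L z → z ∈ Set.range (algebraMap L K) :=
    fun z hz => ⟨⟨z, hcl z hz⟩, rfl⟩
  obtain ⟨z, ⟨k, hk⟩, z0, z1, z2⟩ := sing_rational hcl' hdeg hker hev hs
  have hne : ∃ t : K, t ∉ L := ⟨t, fun h => ht (isAlgebraic_algebraMap (⟨t, h⟩ : L))⟩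
  have hc : ¬ (c.c00 = 0 ∧ c.c10 = 0 ∧ c.c01 = 0 ∧ c.c20 = 0 ∧ c.c11 = 0 ∧ c.c02 = 0 ∧ c.c30 = 0 ∧
      c.c21 = 0 ∧ c.c12 = 0 ∧ c.c03 = 0) := by
    rintro ⟨-, -, -, -, -, -, k1, k2, k3, k4⟩
    exact hdeg ⟨k1, k2, k3, k4⟩
  have hX : ∀ i : Fin 2, aeval ![u, v] (X i : MvPolynomial (Fin 2) L) ≠ 0 := by
    intro i h0
    have h1 := totalDegree_le_of_dvd_of_isDomain (hker _ h0) (X_ne_zero i)
    rw [A.totalDegree_aff c hdeg, totalDegree_X] at h1
    omega
  have hu0 : u ≠ 0 := by simpa using hX 0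
  have hv0 : v ≠ 0 := by simpa using hX 1
  set C := c.map (algebraMap L K) with hC
  have hmem : ∀ (S : Set K) (a b : K), a ∈ IntermediateField.adjoin L S →
      b ∈ IntermediateField.adjoin L S → u = a → v = b → IntermediateField.adjoin L S = ⊤ := by
    intro S a b ha hb hua hvb
    rw [eq_top_iff, ← hgen, IntermediateField.adjoin_le_iff]
    rintro z (rfl | rfl)
    · rw [hua]; exact ha
    · rw [hvb]; exact hb
  refine good_of_dcl ?_
  fin_cases k
  · change z 0 = 1 at hk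
    rw [hk] at z0 z1 z2
    exact node_rational hcl hc hev hgen hne z0 z1 z2
  · change z 1 = 1 at hk
    rw [hk] at z0 z1 z2
    refine node_rational hcl (c := s01 c) (a := u⁻¹) (b := v * u⁻¹) (p := z 0) (q := z 2)
      ?_ ?_ ?_ hne ?_ ?_ ?_
    · rintro ⟨k1, k2, k3, k4, k5, k6, k7, k8, k9, k10⟩
      exact hc ⟨k7, k4, k8, k2, k5, k9, k1, k3, k6, k10⟩
    · change (s01 C).ev 1 u⁻¹ (v * u⁻¹) = 0
      rw [s01_ev]
      have := ev_smul C u⁻¹ 1 u v
      rw [hev, mul_zero, mul_one, inv_mul_cancel₀ hu0, mul_comm u⁻¹ v] at this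
      exact this
    · have ha : u⁻¹ ∈ IntermediateField.adjoin L {u⁻¹, v * u⁻¹} :=
        IntermediateField.subset_adjoin _ _ (by simp)
      have hb : v * u⁻¹ ∈ IntermediateField.adjoin L {u⁻¹, v * u⁻¹} :=
        IntermediateField.subset_adjoin _ _ (by simp)
      refine hmem _ (u⁻¹)⁻¹ (v * u⁻¹ * (u⁻¹)⁻¹) (inv_mem ha) (mul_mem hb (inv_mem ha)) ?_ ?_
      · rw [inv_inv]
      · rw [inv_inv, mul_assoc, inv_mul_cancel₀ hu0, mul_one]
    · rw [s01_d0]; exact z1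
    · rw [s01_d1]; exact z0
    · rw [s01_d2]; exact z2
  · change z 2 = 1 at hk
    rw [hk] at z0 z1 z2
    refine node_rational hcl (c := s02 c) (a := u * v⁻¹) (b := v⁻¹) (p := z 1) (q := z 0)
      ?_ ?_ ?_ hne ?_ ?_ ?_
    · rintro ⟨k1, k2, k3, k4, k5, k6, k7, k8, k9, k10⟩
      exact hc ⟨k10, k9, k6, k8, k5, k3, k7, k4, k2, k1⟩
    · change (s02 C).ev 1 (u * v⁻¹) v⁻¹ = 0
      rw [s02_ev]
      have := ev_smul C v⁻¹ 1 u v
      rw [hev, mul_zero, mul_one, inv_mul_cancel₀ hv0, mul_comm v⁻¹ u] at this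
      exact this
    · have ha : u * v⁻¹ ∈ IntermediateField.adjoin L {u * v⁻¹, v⁻¹} :=
        IntermediateField.subset_adjoin _ _ (by simp)
      have hb : v⁻¹ ∈ IntermediateField.adjoin L {u * v⁻¹, v⁻¹} :=
        IntermediateField.subset_adjoin _ _ (by simp)
      refine hmem _ (u * v⁻¹ * (v⁻¹)⁻¹) (v⁻¹)⁻¹ (mul_mem ha (inv_mem hb)) (inv_mem hb) ?_ ?_
      · rw [inv_inv, mul_assoc, inv_mul_cancel₀ hv0, mul_one]
      · rw [inv_inv]
    · rw [s02_d0]; exact z2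
    · rw [s02_d1]; exact z1
    · rw [s02_d2]; exact z0

/-- **Specialness** -/
theorem special_of_good [CharZero Ω] {N m : ℕ} {f : MvPolynomial (Fin N) Ω} {x : Fin N → K}
    (hx : GPt f x) (L : Fin m → IntermediateField Ω K) (hL : ∀ i, HasGood (L i))
    (hinv : ∀ a : K, (∀ i, IsAlgebraic (L i) a) → a ∈ Set.range (algebraMap Ω K)) :
    ∃ w : ℕ, Algebra.trdeg Ω K = w ∧ Special Ω K w (fun _ => False) := by
  classical
  obtain ⟨n, y, hy⟩ := exists_basis hx
  have htr : Algebra.trdeg Ω K = n := by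
    rw [← hy.cardinalMk_eq_trdeg, Cardinal.mk_fin]
  refine ⟨n, htr, ?_⟩
  intro p hp hbog
  obtain ⟨θ, hθ, M, hM, g, hlog, hreg, hf0, hind⟩ := hbog
  have key : ∀ (i : Fin m) (j : Fin (p + 1)), IsAlgebraic (L i) (g j / g 0) := by
    intro i
    obtain ⟨hcur, D, hD, hDL, hgood⟩ := hL i
    have hcur' := hcur
    obtain ⟨t, S, ht, halg, -⟩ := hcur'
    obtain ⟨n', y', hy', hn⟩ := Pool.Agent.Y689.SP.basis_of_curve n htr (L i) t ht halg
    subst hn
    exact Pool.Agent.Y590.SP.sForm Pool.Agent.Y954.SP.sPole Pool.Agent.Y86.SP.sDiv Ω K (L i) n' y'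
      hy' hcur D hD hDL hgood p θ hθ M g (fun P hP E hE j => hreg P hP not_false E hE j) hf0
  obtain ⟨b, hb⟩ := hinv _ fun i => key i (Fin.succ ⟨0, by omega⟩)
  have h1 : IsAlgebraic Ω (g (Fin.succ ⟨0, by omega⟩) / g 0) := by
    rw [← hb]
    exact isAlgebraic_algebraMap b
  exact hind.transcendental ⟨0, by omega⟩ h1

/-- **Specialness of hypersurfaces with toric fibrations** -/
theorem special_toric [IsAlgClosed Ω] [CharZero Ω] {N m : ℕ} {f : MvPolynomial (Fin N) Ω}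
    {x : Fin N → K} (hx : GPt f x) (hfull : Full f) {a b p q : Fin m → Fin N → ℤ}
    (hd : ∀ i, Dual (a i) (b i) (p i) (q i)) (ht : ∀ i, Thin f (a i) (b i))
    (hconn : ∀ i j, Relation.ReflTransGen (fun i j => Meet (a i) (b i) (a j) (b j)) i j)
    (hspan : ∀ μ : Fin N → ℤ, (∀ i, dot (a i) μ = 0 ∧ dot (b i) μ = 0) → μ = 0) :
    ∃ w : ℕ, Algebra.trdeg Ω K = w ∧ Special Ω K w (fun _ => False) := by
  refine special_of_good hx (fun i => fld Ω x (orth (a i) (b i))) (fun i => ?_)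
    (fun z hz => inv hx hfull hconn hspan hz)
  obtain ⟨h1, h2⟩ := (hd i).curve hx hfull
  rcases (hd i).fibre hx hfull (ht i) with h | h
  · exact good_of_dcl h
  · exact good_of_cubAt (fun z hz => fld_closed _ hz) h h1 h2

end Pool.Agent.V7H25.TF
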