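import Pool.Agent.V7H25.TF.Lnk
import Pool.Agent.V7H25.TF.Spc

set_option autoImplicit false

/-!
# Fibrations in double covers of the line, torsors and plane cubics (helper25)
-/

open FF MvPolynomial AlgebraicGeometry CategoryTheory
open Pool.Agent.W572 Pool.Agent.W572.G Pool.Agent.Y742.GG Pool.Agent.W602.GT
open Pool.Agent.Y742.SP Pool.Agent.Y200.CY Pool.Agent.Y720.MZ

namespace Pool.Agent.V7H25.TF

/-- curves of genus at most one: double covers of the line, torsors under elliptic curves, and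
plane cubics -/
def Crv {Ω K : Type} [Field Ω] [Field K] [Algebra Ω K] (L : IntermediateField Ω K) : Prop :=
  IsDoubleCoverOfLine L ∨ IsEllipticTorsor L ∨ (CubAt L ∧ (∀ z : K, IsAlgebraic L z → z ∈ L) ∧
    ∃ t : K, Transcendental L t ∧ ∀ b : K, IsAlgebraic (IntermediateField.adjoin L {t}) b)

lemma Crv.curve {Ω K : Type} [Field Ω] [Field K] [Algebra Ω K] {L : IntermediateField Ω K}
    (h : Crv L) : ∃ t : K, Transcendental L t ∧
      ∀ b : K, IsAlgebraic (IntermediateField.adjoin L {t}) b := by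
  rcases h with h | h | h
  · exact Pool.Agent.Y742.CN.curve_double h
  · exact Pool.Agent.Y742.CN.curve_torsor h
  · exact h.2.2

lemma Crv.good {Ω K : Type} [Field Ω] [CharZero Ω] [Field K] [Algebra Ω K]
    {L : IntermediateField Ω K} (h : Crv L)
    (hfg : ∃ S : Finset K, IntermediateField.adjoin Ω (S : Set K) = ⊤) : HasGood L := by
  rcases h with h | h | ⟨h, hcl, t, ht, hb⟩
  · exact good_of_dcl h
  · exact Pool.Agent.Y109.SP.sTorsor (Pool.Agent.Y21.SP.sTorA sGoodAll) Ω K L h hfg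
  · exact good_of_cubAt hcl h ht hb

/-- **Points.** -/
theorem pts4 (k₀ : Type) [Field k₀] [CharZero k₀] (hk₀ : FG k₀) {N m : ℕ} (F : MvPolynomial (Fin N) k₀)
    (hF : Irreducible (map (algebraMap k₀ (AlgebraicClosure k₀)) F))
    {K : Type} [Field K] [Algebra (AlgebraicClosure k₀) K] {x : Fin N → K}
    (hx : GPt (map (algebraMap k₀ (AlgebraicClosure k₀)) F) x)
    (L : Fin m → IntermediateField (AlgebraicClosure k₀) K)
    (hL : ∀ i, Crv (L i))
    (hgen : LieSubalgebra.lieSpan (AlgebraicClosure k₀) (Derivation (AlgebraicClosure k₀) K K)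
      {D | ∃ i, ∀ a ∈ L i, D a = 0} = ⊤) :
    Pts k₀ F := by
  classical
  have hcK : CharZero K := charZero_of_injective_algebraMap
    (algebraMap (AlgebraicClosure k₀) K).injective
  -- the fibrations with a derivation
  let J : Type := {i : Fin m // ∃ E : Derivation (AlgebraicClosure k₀) K K,
    E ≠ 0 ∧ ∀ a ∈ L i, E a = 0}
  have hJ : Finite J := Subtype.finite
  have hinst : ∀ i : J, ∃ (D : Derivation (AlgebraicClosure k₀) K K) (μ : Mv K N),
      (∀ E' : Derivation (AlgebraicClosure k₀) K K, (∀ a ∈ L i.1, E' a = 0) →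
        ∃ c : K, E' = c • D) ∧ (∀ l, μ.d l = D (x l)) ∧
      (∀ (k : Type) [Field k] (c : k →+* AlgebraicClosure k₀)
      (G : MvPolynomial (Fin N) k), eval₂ ((algebraMap (AlgebraicClosure k₀) K).comp c) x G = 0 →
        μ.Ok ((algebraMap (AlgebraicClosure k₀) K).comp c) G x) ∧
      (dc (μ.w ^ 2) μ.q₁ μ.q₂ μ.q₃ μ.q₄ ≠ 0 → ∀ h, ∀ n : ℕ, n ≠ 0 →
        n • (.some (xs μ.w μ.q₁ μ.q₂) (ys μ.w μ.q₁ μ.q₂ μ.q₃) h :
          Pt μ.q₂ (rb μ.w μ.q₁ μ.q₃ μ.q₄) (rc μ.w μ.q₁ μ.q₂ μ.q₃ μ.q₄)) ≠ 0) := by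
    rintro ⟨i, E, hE, hEL⟩
    rcases hL i with ⟨t, w, Q, ht, hw, hdeg, hQ, hg⟩ |
      ⟨K', _, _, _, hfin, hgal, a, b, c, X, Y, H⟩ | ⟨⟨c, u, v, hker, hev, h2, hfl, h3, hg⟩, -, -⟩
    · obtain ⟨D, hD, hDt, hall⟩ := exists_norm ht hw hQ hg hE hEL
      obtain ⟨μ, h1, h2, h3⟩ := inst x ht hw hdeg hQ hg D hD hDt
      exact ⟨D, μ, hall, h1, h2, h3⟩
    · obtain ⟨E₁, D₁, hE₁, hD₁, hX, hall⟩ := H.norm hE hEL
      obtain ⟨μ, h1, h2, h3⟩ := H.inst x hE₁ hD₁ hX
      refine ⟨-E₁, μ, fun E' hE' => ?_, h1, h2, h3⟩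
      obtain ⟨c, hc⟩ := hall E' hE'
      exact ⟨-c, by rw [hc, neg_smul_neg]⟩
    · obtain ⟨D, hD, hDu, hDv, hall⟩ := exists_norm3 hev h2 hg hE hEL
      obtain ⟨μ, e, he, k1, k2, k3⟩ := inst3 x hker hev h2 hfl h3 hg D hD hDu hDv
      refine ⟨e • D, μ, ?_, ?_, k2, k3⟩
      · intro E' hE'
        obtain ⟨r, hr⟩ := hall E' hE'
        refine ⟨r * e⁻¹, ?_⟩
        rw [hr, smul_smul, mul_assoc, inv_mul_cancel₀ he, mul_one]
      · intro l
        rw [k1, Derivation.smul_apply, smul_eq_mul]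
  choose D μ hall hd hOk hinf using hinst
  let e := Finite.equivFin J
  have hgen' : LieSubalgebra.lieSpan (AlgebraicClosure k₀)
      (Derivation (AlgebraicClosure k₀) K K)
      {E | ∃ i : Fin (Nat.card J), ∃ c : K, E = c • D (e.symm i)} = ⊤ := by
    rw [eq_top_iff, ← hgen]
    refine LieSubalgebra.lieSpan_le.2 ?_
    rintro E ⟨i, hi⟩
    by_cases hE : E = 0
    · rw [hE]
      exact LieSubalgebra.zero_mem _
    · let i' : J := ⟨i, E, hE, hi⟩
      obtain ⟨c, hc⟩ := hall i' E hi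
      exact LieSubalgebra.subset_lieSpan ⟨e i', c, by rw [Equiv.symm_apply_apply]; exact hc⟩
  obtain ⟨L', hL', hLd⟩ := asm k₀ hk₀ F hF hx.zero_iff hx.generates (fun i => D (e.symm i))
    (fun i => μ (e.symm i)) (fun i => hd _) (fun i => hOk _) (fun i => hinf _) hgen'
  refine ⟨L', hL', fun G hFG => ?_⟩
  have hev : ∀ (y : Fin N → AlgebraicClosure k₀) (H : MvPolynomial (Fin N) k₀),
      eval y (map (algebraMap k₀ (AlgebraicClosure k₀)) H) = aeval y H := by
    intro y H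
    rw [MvPolynomial.eval_map, ← aeval_def]
  by_contra hcon
  push Not at hcon
  refine hFG (dvd_descent F G (hLd _ fun y hy1 hy2 => ?_))
  rw [hev] at hy2 ⊢
  exact hcon y hy1 hy2

/-- **Main theorem** for families of fibrations indexed by a finite type -/
theorem master (k₀ : Type) [Field k₀] [NumberField k₀] {N : ℕ} (F : MvPolynomial (Fin N) k₀)
    (hF : Irreducible (map (algebraMap k₀ (AlgebraicClosure k₀)) F))
    {K : Type} [Field K] [Algebra (AlgebraicClosure k₀) K] {x : Fin N → K}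
    (hx : IsGenericPoint (map (algebraMap k₀ (AlgebraicClosure k₀)) F) x)
    {I : Type} [Finite I] (L : I → IntermediateField (AlgebraicClosure k₀) K)
    (hL : ∀ i, Crv (L i))
    (hinv : ∀ a : K, (∀ i, IsAlgebraic (L i) a) →
      a ∈ Set.range (algebraMap (AlgebraicClosure k₀) K)) :
    (∃ w : ℕ, Algebra.trdeg (AlgebraicClosure k₀) K = w ∧
      Special (AlgebraicClosure k₀) K w (fun _ => False)) ∧
    ∀ (X : Scheme.{0}) (sX : X ⟶ Spec (.of k₀)) (f : (hypersurface F).PartialMap X),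
      IsDominant f.hom → f.hom ≫ sX = f.domain.ι ≫ hypersurfaceStr F → PotentiallyDense sX := by
  classical
  have hchar : CharZero (AlgebraicClosure k₀) :=
    charZero_of_injective_algebraMap (algebraMap k₀ (AlgebraicClosure k₀)).injective
  have hx' : GPt (map (algebraMap k₀ (AlgebraicClosure k₀)) F) x := ⟨hx.zero_iff, hx.generates⟩
  let e := Finite.equivFin I
  have hinv' : ∀ a : K, (∀ j : Fin (Nat.card I), IsAlgebraic (L (e.symm j)) a) →
      a ∈ Set.range (algebraMap (AlgebraicClosure k₀) K) := by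
    intro a ha
    refine hinv a fun i => ?_
    have := ha (e i)
    rwa [Equiv.symm_apply_apply] at this
  have hfg : ∃ S : Finset K, IntermediateField.adjoin (AlgebraicClosure k₀) (S : Set K) = ⊤ :=
    ⟨Finset.univ.image x, by
      rw [Finset.coe_image, Finset.coe_univ, Set.image_univ]; exact hx.generates⟩
  refine ⟨special_of_good hx' (fun j => L (e.symm j)) (fun j => (hL _).good hfg) hinv',
    fun X sX φ hφ hφk => ?_⟩
  refine dens_of_pts k₀ F ?_ sX φ hφ hφk
  obtain ⟨n, y, hy⟩ := exists_basis hx'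
  refine pts4 k₀ (fg_of_numberField k₀) F hF hx' (fun j => L (e.symm j)) (fun j => hL _) ?_
  exact Pool.Agent.Y742.CN.sMain _ K (Fin (Nat.card I)) n y hy (fun j => L (e.symm j))
    (fun j => (hL _).curve) hinv'

end Pool.Agent.V7H25.TF
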