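import Pool.Agent.V7H25.TF.Smc

set_option autoImplicit false

/-!
# Plane cubics with a rational singular point (helper25)
-/

open MvPolynomial Pool.Agent.Y200.CY

namespace Pool.Agent.V7H25.TF

variable {Ω K : Type} [Field Ω] [Field K] [Algebra Ω K]

/-- **Plane cubics with a rational singular point** have a rational parametrisation. -/
theorem node_rational [CharZero Ω] {L : IntermediateField Ω K}
    (hcl : ∀ z : K, IsAlgebraic L z → z ∈ L) {c : Cub L}
    (hc : ¬ (c.c00 = 0 ∧ c.c10 = 0 ∧ c.c01 = 0 ∧ c.c20 = 0 ∧ c.c11 = 0 ∧ c.c02 = 0 ∧ c.c30 = 0 ∧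
      c.c21 = 0 ∧ c.c12 = 0 ∧ c.c03 = 0)) {a b : K}
    (hev : (c.map (algebraMap L K)).ev 1 a b = 0)
    (hgen : IntermediateField.adjoin L {a, b} = ⊤) (hne : ∃ t : K, t ∉ L) {p q : L}
    (h0 : c.d0 1 p q = 0) (h1 : c.d1 1 p q = 0) (h2 : c.d2 1 p q = 0) : DCL L := by
  classical
  have hcL : CharZero L := charZero_of_injective_algebraMap (algebraMap Ω L).injective
  -- one generator
  have hone : ∀ z : K, IntermediateField.adjoin L {z} = ⊤ → DCL L := by
    intro z hz
    refine Qd.line L z (fun halg => ?_) hz
    obtain ⟨t, ht⟩ := hne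
    apply ht
    have h3 : t ∈ IntermediateField.adjoin L {z} := by rw [hz]; trivial
    have h4 : IntermediateField.adjoin L {z} = ⊥ := by
      rw [IntermediateField.adjoin_simple_eq_bot_iff, IntermediateField.mem_bot]
      exact ⟨⟨z, hcl z halg⟩, rfl⟩
    rw [h4, IntermediateField.mem_bot] at h3
    obtain ⟨y, rfl⟩ := h3
    exact y.2
  have hF : c.ev 1 p q = 0 := by
    have := euler3 c 1 p q
    rw [h0, h1, h2, mul_zero, mul_zero, mul_zero, add_zero, add_zero] at this
    exact (mul_eq_zero.1 this.symm).resolve_left (by norm_num)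
  by_cases hap : a - (p : K) = 0
  · refine hone b ?_
    rw [eq_top_iff, ← hgen, IntermediateField.adjoin_le_iff]
    rintro z (rfl | rfl)
    · rw [sub_eq_zero.1 hap]
      exact IntermediateField.algebraMap_mem _ p
    · exact IntermediateField.subset_adjoin _ _ rfl
  set s : K := (b - q) / (a - p) with hs
  have hb : b = q + (a - p) * s := by
    rw [hs, mul_div_cancel₀ _ hap]
    ring
  by_cases hsL : s ∈ L
  · refine hone a ?_
    rw [eq_top_iff, ← hgen, IntermediateField.adjoin_le_iff]
    have ha : a ∈ IntermediateField.adjoin L {a} := IntermediateField.subset_adjoin _ _ rfl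
    rintro z (rfl | rfl)
    · exact ha
    · change z ∈ IntermediateField.adjoin L {a}
      rw [hb]
      exact add_mem (IntermediateField.algebraMap_mem _ q)
        (mul_mem (sub_mem ha (IntermediateField.algebraMap_mem _ p))
          (IntermediateField.algebraMap_mem _ (⟨s, hsL⟩ : L)))
  have hst : Transcendental L s := fun h => hsL (hcl s h)
  -- the equation
  set h : MvPolynomial (Fin 2) L := monomial (A.ex 0 0) (c.b11 p q) +
    monomial (A.ex 0 1) (c.b12 p q) + monomial (A.ex 0 2) (c.b22 p q) +
    monomial (A.ex 1 0) c.c30 + monomial (A.ex 1 1) c.c21 + monomial (A.ex 1 2) c.c12 +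
    monomial (A.ex 1 3) c.c03 with hh
  have hco : ∀ m, coeff m h = (if A.ex 0 0 = m then c.b11 p q else 0) +
      (if A.ex 0 1 = m then c.b12 p q else 0) + (if A.ex 0 2 = m then c.b22 p q else 0) +
      (if A.ex 1 0 = m then c.c30 else 0) + (if A.ex 1 1 = m then c.c21 else 0) +
      (if A.ex 1 2 = m then c.c12 else 0) + (if A.ex 1 3 = m then c.c03 else 0) := by
    intro m
    rw [hh]
    simp only [coeff_add, coeff_monomial]
  refine line_of_linear (u := a - p) (v := s) hst ?_ (g := h) ?_ ?_ ?_
  · rw [eq_top_iff, ← hgen, IntermediateField.adjoin_le_iff]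
    have h3 : a - p ∈ IntermediateField.adjoin L {a - (p : K), s} :=
      IntermediateField.subset_adjoin _ _ (by simp)
    have h4 : s ∈ IntermediateField.adjoin L {a - (p : K), s} :=
      IntermediateField.subset_adjoin _ _ (by simp)
    rintro z (rfl | rfl)
    · change z ∈ IntermediateField.adjoin L {z - (p : K), s}
      have h5 := add_mem h3 (IntermediateField.algebraMap_mem
        (IntermediateField.adjoin L {z - (p : K), s}) p)
      have h6 : z - (p : K) + algebraMap L K p = z := sub_add_cancel z (p : K)
      rwa [h6] at h5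
    · change z ∈ IntermediateField.adjoin L {a - (p : K), s}
      rw [hb]
      exact add_mem (IntermediateField.algebraMap_mem _ q) (mul_mem h3 h4)
  · intro hz
    apply hc
    have k : ∀ i j, coeff (A.ex i j) h = 0 := by
      intro i j
      rw [hz, coeff_zero]
    have k00 := k 0 0
    have k01 := k 0 1
    have k02 := k 0 2
    have k10 := k 1 0
    have k11 := k 1 1
    have k12 := k 1 2
    have k13 := k 1 3
    rw [hco] at k00 k01 k02 k10 k11 k12 k13
    simp only [A.ex_inj] at k00 k01 k02 k10 k11 k12 k13
    norm_num at k00 k01 k02 k10 k11 k12 k13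
    have l20 : c.c20 = 0 := by
      rw [Cub.b11, k10, k11] at k00
      linear_combination k00
    have l11 : c.c11 = 0 := by
      rw [Cub.b12, k11, k12] at k01
      linear_combination k01
    have l02 : c.c02 = 0 := by
      rw [Cub.b22, k12, k13] at k02
      linear_combination k02
    have l10 : c.c10 = 0 := by
      rw [Cub.d1, l20, l11, k10, k11, k12] at h1
      linear_combination h1
    have l01 : c.c01 = 0 := by
      rw [Cub.d2, l11, l02, k11, k12, k13] at h2
      linear_combination h2
    have l00 : c.c00 = 0 := by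
      rw [Cub.ev, l10, l01, l20, l11, l02, k10, k11, k12, k13] at hF
      linear_combination hF
    exact ⟨l00, l10, l01, l20, l11, l02, k10, k11, k12, k13⟩
  · have h3 : (a - p) ^ 2 * aeval ![a - (p : K), s] h = 0 := by
      have h4 := ev_expand (c.map (algebraMap L K)) (p : K) (q : K) (a - p) s
      have h5 : (p : K) + (a - p) = a := by ring
      rw [h5, ← hb, hev] at h4
      have e0 : (c.map (algebraMap L K)).ev 1 (p : K) (q : K) = 0 := by
        have := map_ev (algebraMap L K) c 1 p q
        rw [hF, map_zero, map_one] at this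
        exact this.symm
      have e1 : (c.map (algebraMap L K)).d1 1 (p : K) (q : K) = 0 := by
        have := map_d1 (algebraMap L K) c 1 p q
        rw [h1, map_zero, map_one] at this
        exact this.symm
      have e2 : (c.map (algebraMap L K)).d2 1 (p : K) (q : K) = 0 := by
        have := map_d2 (algebraMap L K) c 1 p q
        rw [h2, map_zero, map_one] at this
        exact this.symm
      rw [e0, e1, e2] at h4
      rw [hh]
      simp only [map_add, aeval_monomial, Finsupp.prod_fintype _ _ (fun i => pow_zero _),
        Fin.prod_univ_two, A.ex_zero, A.ex_one, Matrix.cons_val_zero, Matrix.cons_val_one,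
        Cub.b11, Cub.b12, Cub.b22, map_mul, map_ofNat]
      simp only [Cub.b11, Cub.b12, Cub.b22, Cub.map] at h4
      change 0 = _ at h4
      have hp' : algebraMap L K p = p := rfl
      have hq' : algebraMap L K q = q := rfl
      rw [hp', hq']
      linear_combination -h4
    exact (mul_eq_zero.1 h3).resolve_left (pow_ne_zero _ hap)
  · intro m hm
    by_contra hlt
    rw [MvPolynomial.mem_support_iff] at hm
    apply hm
    have hex : ∀ i j, i ≤ 1 → A.ex i j ≠ m := by
      rintro i j hi rfl
      rw [A.ex_zero] at hlt
      omega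
    rw [hco, if_neg (hex _ _ (by norm_num)), if_neg (hex _ _ (by norm_num)),
      if_neg (hex _ _ (by norm_num)), if_neg (hex _ _ (by norm_num)),
      if_neg (hex _ _ (by norm_num)), if_neg (hex _ _ (by norm_num)),
      if_neg (hex _ _ (by norm_num))]
    ring

end Pool.Agent.V7H25.TF
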