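import Pool.Agent.V7H25.TF.Sg

set_option autoImplicit false

/-!
# Plane cubics: the singular points are rational (helper25)
-/

open MvPolynomial Pool.Agent.Y200.CY

namespace Pool.Agent.V7H25.TF

section

variable {L K : Type} [Field L] [CharZero L] [Field K] [Algebra L K]

/-- Nullstellensatz -/
theorem smoAll_of {c : Cub L} (h : (c.map (algebraMap L (Mf L K))).Smo) : SmoAll c := by
  set F0 : MvPolynomial (Fin 3) L := (c.map C).d0 (X 0) (X 1) (X 2) with hF0
  set F1 : MvPolynomial (Fin 3) L := (c.map C).d1 (X 0) (X 1) (X 2) with hF1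
  set F2 : MvPolynomial (Fin 3) L := (c.map C).d2 (X 0) (X 1) (X 2) with hF2
  have hev0 : ∀ {E : Type} [Field E] (φ : L →+* E) (z : Fin 3 → E),
      eval₂Hom φ z F0 = (c.map φ).d0 (z 0) (z 1) (z 2) := by
    intro E _ φ z
    rw [hF0, map_d0]
    simp [Cub.map, Cub.d0]
  have hev1 : ∀ {E : Type} [Field E] (φ : L →+* E) (z : Fin 3 → E),
      eval₂Hom φ z F1 = (c.map φ).d1 (z 0) (z 1) (z 2) := by
    intro E _ φ z
    rw [hF1, map_d1]
    simp [Cub.map, Cub.d1]
  have hev2 : ∀ {E : Type} [Field E] (φ : L →+* E) (z : Fin 3 → E),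
      eval₂Hom φ z F2 = (c.map φ).d2 (z 0) (z 1) (z 2) := by
    intro E _ φ z
    rw [hF2, map_d2]
    simp [Cub.map, Cub.d2]
  set I : Ideal (MvPolynomial (Fin 3) L) := Ideal.span {F0, F1, F2} with hI
  have hac : IsAlgClosed (Mf L K) := (algebraicClosure.isAlgClosure L (AlgebraicClosure K)).isAlgClosed
  have hrad : ∀ i : Fin 3, (X i : MvPolynomial (Fin 3) L) ∈ I.radical := by
    intro i
    rw [← vanishingIdeal_zeroLocus_eq_radical (K := Mf L K)]
    intro z hz
    have h0 : aeval z F0 = 0 := hz F0 (Ideal.subset_span (by simp))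
    have h1 : aeval z F1 = 0 := hz F1 (Ideal.subset_span (by simp))
    have h2 : aeval z F2 = 0 := hz F2 (Ideal.subset_span (by simp))
    obtain ⟨k0, k1, k2⟩ := h (z 0) (z 1) (z 2) (by rw [← hev0]; exact h0)
      (by rw [← hev1]; exact h1) (by rw [← hev2]; exact h2)
    rw [aeval_X]
    fin_cases i
    · exact k0
    · exact k1
    · exact k2
  intro E _ φ p q r h0 h1 h2
  have hker : ∀ F ∈ I, eval₂Hom φ ![p, q, r] F = 0 := by
    intro F hF
    have hle : I ≤ RingHom.ker (eval₂Hom φ ![p, q, r]) := by
      rw [hI, Ideal.span_le]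
      rintro F (rfl | rfl | rfl)
      · exact (hev0 φ _).trans h0
      · exact (hev1 φ _).trans h1
      · exact (hev2 φ _).trans h2
    exact hle hF
  have hz : ∀ i : Fin 3, (![p, q, r] : Fin 3 → E) i = 0 := by
    intro i
    obtain ⟨n, hn⟩ := hrad i
    have h3 := hker _ hn
    rw [map_pow] at h3
    have h4 : eval₂Hom φ ![p, q, r] (X i) = (![p, q, r] : Fin 3 → E) i := by
      rw [coe_eval₂Hom, eval₂_X]
    rw [h4] at h3
    exact (pow_eq_zero_iff (by
      rintro rfl
      simp at h3)).1 h3
  exact ⟨hz 0, hz 1, hz 2⟩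

/-- **Singular points are rational.** -/
theorem sing_rational (hcl : ∀ z : K, IsAlgebraic L z → z ∈ Set.range (algebraMap L K))
    {c : Cub L} (hdeg : c.Deg3) {u v : K}
    (hker : ∀ P : MvPolynomial (Fin 2) L, aeval ![u, v] P = 0 → c.aff ∣ P)
    (hev : (c.map (algebraMap L K)).ev 1 u v = 0) (hs : ¬ SmoAll c) :
    ∃ z : Fin 3 → L, (∃ k, z k = 1) ∧ c.d0 (z 0) (z 1) (z 2) = 0 ∧ c.d1 (z 0) (z 1) (z 2) = 0 ∧
      c.d2 (z 0) (z 1) (z 2) = 0 := by
  classical
  have hcK : CharZero K := charZero_of_injective_algebraMap (algebraMap L K).injective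
  have h1 : ¬ (c.map (algebraMap L (Mf L K))).Smo := fun h => hs (smoAll_of h)
  rw [Cub.Smo] at h1
  push Not at h1
  obtain ⟨p, q, r, h0, h1, h2, hne⟩ := h1
  set c' := c.map (algebraMap L (Mf L K)) with hc'
  -- normalise
  obtain ⟨k, hk⟩ : ∃ k, (![p, q, r] : Fin 3 → Mf L K) k ≠ 0 := by
    by_contra h
    push Not at h
    exact hne (h 0) (h 1) (h 2)
  set t := ((![p, q, r] : Fin 3 → Mf L K) k)⁻¹ with ht
  set P : Fin 3 → Mf L K := fun i => t * (![p, q, r] : Fin 3 → Mf L K) i with hP
  have hPk : P k = 1 := inv_mul_cancel₀ hk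
  have p0 : c'.d0 (P 0) (P 1) (P 2) = 0 := by
    have := d0_smul c' t p q r
    rw [h0, mul_zero] at this
    exact this
  have p1 : c'.d1 (P 0) (P 1) (P 2) = 0 := by
    have := d1_smul c' t p q r
    rw [h1, mul_zero] at this
    exact this
  have p2 : c'.d2 (P 0) (P 1) (P 2) = 0 := by
    have := d2_smul c' t p q r
    rw [h2, mul_zero] at this
    exact this
  have hrat : ∀ i, ∃ d : L, algebraMap L (Mf L K) d = P i := by
    intro i
    by_cases hfix : ∀ σ : Gal(AlgebraicClosure K/K), σ (P i : AlgebraicClosure K) = P i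
    · obtain ⟨κ, hκ⟩ := (InfiniteGalois.mem_range_algebraMap_iff_fixed (k := K)
        (P i : AlgebraicClosure K)).2 hfix
      have h3 : IsAlgebraic L κ := by
        have h4 : IsAlgebraic L (P i : AlgebraicClosure K) :=
          mem_algebraicClosure_iff.1 (SetLike.coe_mem _)
        rw [← hκ] at h4
        exact (isAlgebraic_algebraMap_iff (algebraMap K (AlgebraicClosure K)).injective).1 h4
      obtain ⟨d, hd⟩ := hcl κ h3
      refine ⟨d, Subtype.ext ?_⟩
      rw [← hκ, ← hd]
      exact IsScalarTower.algebraMap_apply L K (AlgebraicClosure K) d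
    · exfalso
      push Not at hfix
      obtain ⟨σ, hσ⟩ := hfix
      -- the conjugate point
      let σ' : AlgebraicClosure K →ₐ[L] AlgebraicClosure K :=
        (σ : AlgebraicClosure K →ₐ[K] AlgebraicClosure K).restrictScalars L
      have hmem : ∀ z : Mf L K, σ' (z : AlgebraicClosure K) ∈ Mf L K := fun z =>
        mem_algebraicClosure_iff.2 ((mem_algebraicClosure_iff.1 (SetLike.coe_mem z)).algHom σ')
      let τ : Mf L K →+* Mf L K :=
        { toFun := fun z => ⟨σ' z, hmem z⟩
          map_one' := Subtype.ext (map_one σ')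
          map_mul' := fun a b => Subtype.ext (map_mul σ' _ _)
          map_zero' := Subtype.ext (map_zero σ')
          map_add' := fun a b => Subtype.ext (map_add σ' _ _) }
      have hτc : τ.comp (algebraMap L (Mf L K)) = algebraMap L (Mf L K) := by
        ext d
        exact σ'.commutes d
      have hcτ : c'.map τ = c' := by
        have e : c'.map τ = c.map (τ.comp (algebraMap L (Mf L K))) := rfl
        rw [e, hτc]
      have q0 := congrArg τ p0
      have q1 := congrArg τ p1
      have q2 := congrArg τ p2
      rw [map_d0, hcτ, map_zero] at q0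
      rw [map_d1, hcτ, map_zero] at q1
      rw [map_d2, hcτ, map_zero] at q2
      have hτk : τ (P k) = 1 := by rw [hPk, map_one]
      refine two_sing hcl hdeg hker hev p0 p1 p2 q0 q1 q2 ?_
      rintro ⟨n0, n1, n2⟩
      have hi : τ (P i) = P i := by
        fin_cases k
        · change P 0 = 1 at hPk
          change τ (P 0) = 1 at hτk
          rw [hPk, map_one] at n1 n2
          fin_cases i
          · exact hτk.trans hPk.symm
          · change τ (P 1) = P 1
            linear_combination n2
          · change τ (P 2) = P 2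
            linear_combination -n1
        · change P 1 = 1 at hPk
          change τ (P 1) = 1 at hτk
          rw [hPk, map_one] at n0 n2
          fin_cases i
          · change τ (P 0) = P 0
            linear_combination -n2
          · exact hτk.trans hPk.symm
          · change τ (P 2) = P 2
            linear_combination n0
        · change P 2 = 1 at hPk
          change τ (P 2) = 1 at hτk
          rw [hPk, map_one] at n0 n1
          fin_cases i
          · change τ (P 0) = P 0
            linear_combination n1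
          · change τ (P 1) = P 1
            linear_combination -n0
          · exact hτk.trans hPk.symm
      exact hσ (congrArg Subtype.val hi)
  choose z hz using hrat
  refine ⟨z, ⟨k, ?_⟩, ?_, ?_, ?_⟩
  · apply (algebraMap L (Mf L K)).injective
    rw [hz, hPk, map_one]
  · apply (algebraMap L (Mf L K)).injective
    rw [map_d0, hz, hz, hz, map_zero]
    exact p0
  · apply (algebraMap L (Mf L K)).injective
    rw [map_d1, hz, hz, hz, map_zero]
    exact p1
  · apply (algebraMap L (Mf L K)).injective
    rw [map_d2, hz, hz, hz, map_zero]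
    exact p2

end

end Pool.Agent.V7H25.TF
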