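import Pool.Agent.V7H25.TF.Ld
import Pool.Agent.V7H25.TF.Nd

set_option autoImplicit false

/-!
# Singular plane cubics (helper25)
-/

open MvPolynomial Pool.Agent.Y200.CY

namespace Pool.Agent.V7H25.TF

/-- the expansion of a cubic form with two singular points -/
lemma ev_two {A : Type*} [CommRing A] (c : Cub A) {P0 P1 P2 Q0 Q1 Q2 : A}
    (hP : c.ev P0 P1 P2 = 0) (hQ : c.ev Q0 Q1 Q2 = 0)
    (p0 : c.d0 P0 P1 P2 = 0) (p1 : c.d1 P0 P1 P2 = 0) (p2 : c.d2 P0 P1 P2 = 0)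
    (q0 : c.d0 Q0 Q1 Q2 = 0) (q1 : c.d1 Q0 Q1 Q2 = 0) (q2 : c.d2 Q0 Q1 Q2 = 0)
    (R0 R1 R2 α β γ : A) :
    c.ev (α * P0 + β * Q0 + γ * R0) (α * P1 + β * Q1 + γ * R1) (α * P2 + β * Q2 + γ * R2) =
      γ * (α * β * (R0 * c.d0 (P0 + Q0) (P1 + Q1) (P2 + Q2) +
          R1 * c.d1 (P0 + Q0) (P1 + Q1) (P2 + Q2) + R2 * c.d2 (P0 + Q0) (P1 + Q1) (P2 + Q2)) +
        γ * (α * (P0 * c.d0 R0 R1 R2 + P1 * c.d1 R0 R1 R2 + P2 * c.d2 R0 R1 R2) +
          β * (Q0 * c.d0 R0 R1 R2 + Q1 * c.d1 R0 R1 R2 + Q2 * c.d2 R0 R1 R2)) +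
        γ ^ 2 * c.ev R0 R1 R2) := by
  have key : c.ev (α * P0 + β * Q0 + γ * R0) (α * P1 + β * Q1 + γ * R1)
      (α * P2 + β * Q2 + γ * R2) -
      γ * (α * β * (R0 * c.d0 (P0 + Q0) (P1 + Q1) (P2 + Q2) +
          R1 * c.d1 (P0 + Q0) (P1 + Q1) (P2 + Q2) + R2 * c.d2 (P0 + Q0) (P1 + Q1) (P2 + Q2)) +
        γ * (α * (P0 * c.d0 R0 R1 R2 + P1 * c.d1 R0 R1 R2 + P2 * c.d2 R0 R1 R2) +
          β * (Q0 * c.d0 R0 R1 R2 + Q1 * c.d1 R0 R1 R2 + Q2 * c.d2 R0 R1 R2)) +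
        γ ^ 2 * c.ev R0 R1 R2) =
      α ^ 3 * c.ev P0 P1 P2 + β ^ 3 * c.ev Q0 Q1 Q2 +
      ((α ^ 2 * β * Q0 + α ^ 2 * γ * R0 - α * β * γ * R0) * c.d0 P0 P1 P2 +
       (α ^ 2 * β * Q1 + α ^ 2 * γ * R1 - α * β * γ * R1) * c.d1 P0 P1 P2 +
       (α ^ 2 * β * Q2 + α ^ 2 * γ * R2 - α * β * γ * R2) * c.d2 P0 P1 P2) +
      ((α * β ^ 2 * P0 + β ^ 2 * γ * R0 - α * β * γ * R0) * c.d0 Q0 Q1 Q2 +
       (α * β ^ 2 * P1 + β ^ 2 * γ * R1 - α * β * γ * R1) * c.d1 Q0 Q1 Q2 +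
       (α * β ^ 2 * P2 + β ^ 2 * γ * R2 - α * β * γ * R2) * c.d2 Q0 Q1 Q2) := by
    simp only [Cub.ev, Cub.d0, Cub.d1, Cub.d2]
    ring
  rw [hP, hQ, p0, p1, p2, q0, q1, q2] at key
  rw [← sub_eq_zero, key]
  ring

lemma td_lin {M : Type*} [Field M] (a b d : M) :
    (C a + C b * X 0 + C d * X 1 : MvPolynomial (Fin 2) M).totalDegree ≤ 1 := by
  have h : ∀ (e : M) (i : Fin 2), (C e * X i : MvPolynomial (Fin 2) M).totalDegree ≤ 1 := by
    intro e i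
    refine (totalDegree_mul _ _).trans ?_
    rw [totalDegree_C, totalDegree_X]
  refine (totalDegree_add _ _).trans (max_le ((totalDegree_add _ _).trans (max_le ?_ (h b 0)))
    (h d 1))
  rw [totalDegree_C]
  exact Nat.zero_le _

section

variable {L K : Type} [Field L] [CharZero L] [Field K] [Algebra L K]

lemma deg_rel (hcl : ∀ z : K, IsAlgebraic L z → z ∈ Set.range (algebraMap L K)) {c : Cub L}
    (hdeg : c.Deg3) {u v : K}
    (hker : ∀ P : MvPolynomial (Fin 2) L, aeval ![u, v] P = 0 → c.aff ∣ P)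
    (H : MvPolynomial (Fin 2) (Mf L K)) (hH : H.totalDegree ≤ 2)
    (h0 : aeval ![algebraMap K (AlgebraicClosure K) u, algebraMap K (AlgebraicClosure K) v] H = 0) :
    H = 0 := by
  by_contra hne
  obtain ⟨G, hG, hG0, hGd⟩ := descend_pol hcl u v H hne h0
  have h1 := totalDegree_le_of_dvd_of_isDomain (hker G hG0) hG
  rw [A.totalDegree_aff c hdeg] at h1
  omega

/-- **At most one singular point.** -/
theorem two_sing (hcl : ∀ z : K, IsAlgebraic L z → z ∈ Set.range (algebraMap L K)) {c : Cub L}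
    (hdeg : c.Deg3) {u v : K}
    (hker : ∀ P : MvPolynomial (Fin 2) L, aeval ![u, v] P = 0 → c.aff ∣ P)
    (hev : (c.map (algebraMap L K)).ev 1 u v = 0) {P0 P1 P2 Q0 Q1 Q2 : Mf L K}
    (p0 : (c.map (algebraMap L (Mf L K))).d0 P0 P1 P2 = 0)
    (p1 : (c.map (algebraMap L (Mf L K))).d1 P0 P1 P2 = 0)
    (p2 : (c.map (algebraMap L (Mf L K))).d2 P0 P1 P2 = 0)
    (q0 : (c.map (algebraMap L (Mf L K))).d0 Q0 Q1 Q2 = 0)
    (q1 : (c.map (algebraMap L (Mf L K))).d1 Q0 Q1 Q2 = 0)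
    (q2 : (c.map (algebraMap L (Mf L K))).d2 Q0 Q1 Q2 = 0)
    (hne : ¬ (P1 * Q2 - P2 * Q1 = 0 ∧ P2 * Q0 - P0 * Q2 = 0 ∧ P0 * Q1 - P1 * Q0 = 0)) :
    False := by
  have hcM : CharZero (Mf L K) :=
    charZero_of_injective_algebraMap (algebraMap L (Mf L K)).injective
  set c' := c.map (algebraMap L (Mf L K)) with hc'
  have hP : c'.ev P0 P1 P2 = 0 := by
    have := euler3 c' P0 P1 P2
    rw [p0, p1, p2, mul_zero, mul_zero, mul_zero, add_zero, add_zero] at this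
    exact (mul_eq_zero.1 this.symm).resolve_left (by norm_num)
  have hQ : c'.ev Q0 Q1 Q2 = 0 := by
    have := euler3 c' Q0 Q1 Q2
    rw [q0, q1, q2, mul_zero, mul_zero, mul_zero, add_zero, add_zero] at this
    exact (mul_eq_zero.1 this.symm).resolve_left (by norm_num)
  obtain ⟨R0, R1, R2, hR⟩ : ∃ R0 R1 R2 : Mf L K, R0 * (P1 * Q2 - P2 * Q1) +
      R1 * (P2 * Q0 - P0 * Q2) + R2 * (P0 * Q1 - P1 * Q0) ≠ 0 := by
    by_contra h
    push Not at h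
    exact hne ⟨by simpa using h 1 0 0, by simpa using h 0 1 0, by simpa using h 0 0 1⟩
  set Δ := R0 * (P1 * Q2 - P2 * Q1) + R1 * (P2 * Q0 - P0 * Q2) + R2 * (P0 * Q1 - P1 * Q0) with hΔ
  set α : MvPolynomial (Fin 2) (Mf L K) := C (Q1 * R2 - Q2 * R1) + C (Q2 * R0 - Q0 * R2) * X 0 +
    C (Q0 * R1 - Q1 * R0) * X 1 with hα
  set β : MvPolynomial (Fin 2) (Mf L K) := C (P2 * R1 - P1 * R2) + C (P0 * R2 - P2 * R0) * X 0 +
    C (P1 * R0 - P0 * R1) * X 1 with hβ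
  set γ : MvPolynomial (Fin 2) (Mf L K) := C (P1 * Q2 - P2 * Q1) + C (P2 * Q0 - P0 * Q2) * X 0 +
    C (P0 * Q1 - P1 * Q0) * X 1 with hγ
  have e0 : α * C P0 + β * C Q0 + γ * C R0 = C Δ * 1 := by
    rw [hα, hβ, hγ, hΔ]
    simp only [map_add, map_sub, map_mul]
    ring
  have e1 : α * C P1 + β * C Q1 + γ * C R1 = C Δ * X 0 := by
    rw [hα, hβ, hγ, hΔ]
    simp only [map_add, map_sub, map_mul]
    ring
  have e2 : α * C P2 + β * C Q2 + γ * C R2 = C Δ * X 1 := by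
    rw [hα, hβ, hγ, hΔ]
    simp only [map_add, map_sub, map_mul]
    ring
  set cA : Cub (MvPolynomial (Fin 2) (Mf L K)) := c'.map C with hcA
  have hm : ∀ {z : Mf L K}, z = 0 → (C z : MvPolynomial (Fin 2) (Mf L K)) = 0 := by
    rintro _ rfl
    exact C_0
  have key := ev_two cA (P0 := C P0) (P1 := C P1) (P2 := C P2) (Q0 := C Q0) (Q1 := C Q1)
    (Q2 := C Q2) ((map_ev C c' _ _ _).symm.trans (hm hP)) ((map_ev C c' _ _ _).symm.trans (hm hQ))
    ((map_d0 C c' _ _ _).symm.trans (hm p0)) ((map_d1 C c' _ _ _).symm.trans (hm p1))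
    ((map_d2 C c' _ _ _).symm.trans (hm p2)) ((map_d0 C c' _ _ _).symm.trans (hm q0))
    ((map_d1 C c' _ _ _).symm.trans (hm q1)) ((map_d2 C c' _ _ _).symm.trans (hm q2))
    (C R0) (C R1) (C R2) α β γ
  rw [e0, e1, e2, ev_smul] at key
  have haff : cA.ev 1 (X 0) (X 1) = c'.aff := rfl
  rw [haff] at key
  simp only [← map_add, hcA, ← map_d0, ← map_d1, ← map_d2, ← map_ev, ← map_mul] at key
  set k1 := R0 * c'.d0 (P0 + Q0) (P1 + Q1) (P2 + Q2) + R1 * c'.d1 (P0 + Q0) (P1 + Q1) (P2 + Q2) +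
    R2 * c'.d2 (P0 + Q0) (P1 + Q1) (P2 + Q2) with hk1
  set k2 := P0 * c'.d0 R0 R1 R2 + P1 * c'.d1 R0 R1 R2 + P2 * c'.d2 R0 R1 R2 with hk2
  set k3 := Q0 * c'.d0 R0 R1 R2 + Q1 * c'.d1 R0 R1 R2 + Q2 * c'.d2 R0 R1 R2 with hk3
  set G := α * β * C k1 + γ * (α * C k2 + β * C k3) + γ ^ 2 * C (c'.ev R0 R1 R2) with hG
  have hα1 : α.totalDegree ≤ 1 := td_lin _ _ _
  have hβ1 : β.totalDegree ≤ 1 := td_lin _ _ _
  have hγ1 : γ.totalDegree ≤ 1 := td_lin _ _ _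
  have hmulC : ∀ (p : MvPolynomial (Fin 2) (Mf L K)) (k : Mf L K) (n : ℕ), p.totalDegree ≤ n →
      (p * C k).totalDegree ≤ n := by
    intro p k n hp
    refine (totalDegree_mul _ _).trans ?_
    rw [totalDegree_C, add_zero]
    exact hp
  have hG2 : G.totalDegree ≤ 2 := by
    refine (totalDegree_add _ _).trans (max_le ((totalDegree_add _ _).trans (max_le ?_ ?_)) ?_)
    · refine hmulC _ _ _ ((totalDegree_mul _ _).trans ?_)
      omega
    · refine (totalDegree_mul _ _).trans ?_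
      have : (α * C k2 + β * C k3).totalDegree ≤ 1 :=
        (totalDegree_add _ _).trans (max_le (hmulC _ _ _ hα1) (hmulC _ _ _ hβ1))
      omega
    · refine hmulC _ _ _ ((totalDegree_pow _ _).trans ?_)
      omega
  have hzero : aeval ![algebraMap K (AlgebraicClosure K) u, algebraMap K (AlgebraicClosure K) v]
      c'.aff = 0 := by
    rw [A.aeval_aff]
    have h1 := map_ev (algebraMap K (AlgebraicClosure K)) (c.map (algebraMap L K)) 1 u v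
    rw [hev, map_zero, map_one] at h1
    exact h1.symm
  have h2 : aeval ![algebraMap K (AlgebraicClosure K) u, algebraMap K (AlgebraicClosure K) v]
      (γ * G) = 0 := by
    rw [← key, map_mul, hzero, mul_zero]
  have h3 : γ * G = 0 := by
    rw [map_mul] at h2
    rcases mul_eq_zero.1 h2 with h | h
    · rw [deg_rel hcl hdeg hker γ (by omega) h, zero_mul]
    · rw [deg_rel hcl hdeg hker G hG2 h, mul_zero]
  rw [h3] at key
  have h4 : c'.aff = 0 := (mul_eq_zero.1 key).resolve_left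
    (pow_ne_zero _ (by rw [Ne, C_eq_zero]; exact hR))
  have hdeg' : c'.Deg3 := by
    rintro ⟨k1, k2, k3, k4⟩
    have hinj := (algebraMap L (Mf L K)).injective
    exact hdeg ⟨hinj (k1.trans (map_zero _).symm), hinj (k2.trans (map_zero _).symm),
      hinj (k3.trans (map_zero _).symm), hinj (k4.trans (map_zero _).symm)⟩
  have h5 := A.totalDegree_aff c' hdeg'
  rw [h4, totalDegree_zero] at h5
  omega

end

end Pool.Agent.V7H25.TF
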