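import Pool.Agent.V7H25.TF.Dns
import Pool.Agent.Y742.SP.Main
import Pool.Agent.Y37.SP.Double

set_option autoImplicit false

/-!
# The vector field of a smooth plane cubic (helper25)
-/

open FF Pool.Agent.W602.GT Pool.Agent.Y742.SP Pool.Agent.Y200.CY

namespace Pool.Agent.V7H25.TF

section cub

variable {R : Type*} [CommRing R]

lemma euler3 (c : Cub R) (p q r : R) :
    p * c.d0 p q r + q * c.d1 p q r + r * c.d2 p q r = 3 * c.ev p q r := by
  simp only [Cub.ev, Cub.d0, Cub.d1, Cub.d2]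
  ring

lemma map_d0 {S : Type*} [CommRing S] (φ : R →+* S) (c : Cub R) (p q r : R) :
    φ (c.d0 p q r) = (c.map φ).d0 (φ p) (φ q) (φ r) := by
  simp only [Cub.d0, Cub.map, map_add, map_mul, map_pow, map_ofNat]

lemma map_d1 {S : Type*} [CommRing S] (φ : R →+* S) (c : Cub R) (p q r : R) :
    φ (c.d1 p q r) = (c.map φ).d1 (φ p) (φ q) (φ r) := by
  simp only [Cub.d1, Cub.map, map_add, map_mul, map_pow, map_ofNat]

lemma map_d2 {S : Type*} [CommRing S] (φ : R →+* S) (c : Cub R) (p q r : R) :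
    φ (c.d2 p q r) = (c.map φ).d2 (φ p) (φ q) (φ r) := by
  simp only [Cub.d2, Cub.map, map_add, map_mul, map_pow, map_ofNat]

/-- exchange of the coordinates 0 and 1 -/
def s01 {R : Type*} (c : Cub R) : Cub R :=
  ⟨c.c30, c.c20, c.c21, c.c10, c.c11, c.c12, c.c00, c.c01, c.c02, c.c03⟩

/-- exchange of the coordinates 0 and 2 -/
def s02 {R : Type*} (c : Cub R) : Cub R :=
  ⟨c.c03, c.c12, c.c02, c.c21, c.c11, c.c01, c.c30, c.c20, c.c10, c.c00⟩

lemma s01_ev (c : Cub R) (p q r : R) : (s01 c).ev p q r = c.ev q p r := by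
  simp only [s01, Cub.ev]; ring

lemma s02_ev (c : Cub R) (p q r : R) : (s02 c).ev p q r = c.ev r q p := by
  simp only [s02, Cub.ev]; ring

lemma s01_d0 (c : Cub R) (p q r : R) : (s01 c).d0 p q r = c.d1 q p r := by
  simp only [s01, Cub.d0, Cub.d1]; ring

lemma s01_d1 (c : Cub R) (p q r : R) : (s01 c).d1 p q r = c.d0 q p r := by
  simp only [s01, Cub.d0, Cub.d1]; ring

lemma s01_d2 (c : Cub R) (p q r : R) : (s01 c).d2 p q r = c.d2 q p r := by
  simp only [s01, Cub.d2]; ring

lemma s02_d0 (c : Cub R) (p q r : R) : (s02 c).d0 p q r = c.d2 r q p := by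
  simp only [s02, Cub.d0, Cub.d2]; ring

lemma s02_d1 (c : Cub R) (p q r : R) : (s02 c).d1 p q r = c.d1 r q p := by
  simp only [s02, Cub.d1]; ring

lemma s02_d2 (c : Cub R) (p q r : R) : (s02 c).d2 p q r = c.d0 r q p := by
  simp only [s02, Cub.d0, Cub.d2]; ring

end cub

/-- no singular points over any field -/
def SmoAll {L : Type} [Field L] (c : Cub L) : Prop :=
  ∀ (E : Type) [Field E] (φ : L →+* E), (c.map φ).Smo

lemma smoAll_s01 {L : Type} [Field L] {c : Cub L} (h : SmoAll c) : SmoAll (s01 c) := by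
  intro E _ φ p q r h0 h1 h2
  have e : (s01 c).map φ = s01 (c.map φ) := rfl
  rw [e] at h0 h1 h2
  rw [s01_d0] at h0
  rw [s01_d1] at h1
  rw [s01_d2] at h2
  obtain ⟨k1, k2, k3⟩ := h E φ q p r h1 h0 h2
  exact ⟨k2, k1, k3⟩

lemma smoAll_s02 {L : Type} [Field L] {c : Cub L} (h : SmoAll c) : SmoAll (s02 c) := by
  intro E _ φ p q r h0 h1 h2
  have e : (s02 c).map φ = s02 (c.map φ) := rfl
  rw [e] at h0 h1 h2
  rw [s02_d0] at h0
  rw [s02_d1] at h1
  rw [s02_d2] at h2
  obtain ⟨k1, k2, k3⟩ := h E φ r q p h2 h1 h0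
  exact ⟨k3, k2, k1⟩

section

variable {Ω K : Type} [Field Ω] [Field K] [Algebra Ω K]

lemma aeval_pderiv_zero {L : Type*} [Field L] [Algebra L K] (c : Cub L) (a b : K) :
    MvPolynomial.aeval ![a, b] (MvPolynomial.pderiv 0 c.aff) =
      (c.map (algebraMap L K)).d1 1 a b := by
  simp only [Cub.aff, Cub.ev, Cub.map, Cub.d1, map_add, Derivation.leibniz,
    Derivation.leibniz_pow, MvPolynomial.pderiv_C, MvPolynomial.pderiv_X_self,
    MvPolynomial.pderiv_X_of_ne (show (1 : Fin 2) ≠ 0 by decide), map_mul, map_pow,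
    MvPolynomial.aeval_X, MvPolynomial.aeval_C, smul_eq_mul, nsmul_eq_mul,
    Matrix.cons_val_zero, Matrix.cons_val_one, map_natCast,
    one_pow, mul_one, mul_zero, add_zero, zero_add]
  push_cast
  ring

lemma aeval_pderiv_one {L : Type*} [Field L] [Algebra L K] (c : Cub L) (a b : K) :
    MvPolynomial.aeval ![a, b] (MvPolynomial.pderiv 1 c.aff) =
      (c.map (algebraMap L K)).d2 1 a b := by
  simp only [Cub.aff, Cub.ev, Cub.map, Cub.d2, map_add, Derivation.leibniz,
    Derivation.leibniz_pow, MvPolynomial.pderiv_C, MvPolynomial.pderiv_X_self,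
    MvPolynomial.pderiv_X_of_ne (show (0 : Fin 2) ≠ 1 by decide), map_mul, map_pow,
    MvPolynomial.aeval_X, MvPolynomial.aeval_C, smul_eq_mul, nsmul_eq_mul,
    Matrix.cons_val_zero, Matrix.cons_val_one, map_natCast,
    one_pow, mul_one, mul_zero, add_zero, zero_add]
  push_cast
  ring

/-- the constants in the valuation ring -/
noncomputable def toO {P : Place Ω K} {L : IntermediateField Ω K} (hP : TrivOn P L) : L →+* P.O where
  toFun a := ⟨(a : K), Pool.Agent.Y37.SP.reg_coe hP a⟩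
  map_one' := rfl
  map_mul' _ _ := rfl
  map_zero' := rfl
  map_add' _ _ := rfl

/-- an affine chart -/
lemma chart3 [CharZero Ω] {P : Place Ω K} {L : IntermediateField Ω K} (hP : TrivOn P L)
    {c : Cub L} (hs : SmoAll c) {a b : K} (hev : (c.map (algebraMap L K)).ev 1 a b = 0)
    (hgen : IntermediateField.adjoin L {a, b} = ⊤) (ha : P.Reg a) (hb : P.Reg b)
    {D : Derivation Ω K K} (hDL : ∀ z ∈ L, D z = 0)
    (hDa : D a = (c.map (algebraMap L K)).d2 1 a b)
    (hDb : D b = - (c.map (algebraMap L K)).d1 1 a b) : GoodAt P L D := by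
  have key : ∃ i : Fin 2, P.red (MvPolynomial.aeval ![a, b] (MvPolynomial.pderiv i c.aff)) ≠ 0 ∧
      P.Reg (MvPolynomial.aeval ![a, b] (MvPolynomial.pderiv i c.aff)) := by
    set a' : P.O := ⟨a, ha⟩ with ha'
    set b' : P.O := ⟨b, hb⟩ with hb'
    set c' : Cub P.O := c.map (toO hP) with hc'
    have e : c'.map P.O.subtype = c.map (algebraMap L K) := rfl
    have e0 : ((c'.d0 1 a' b' : P.O) : K) = (c.map (algebraMap L K)).d0 1 a b := by
      have := map_d0 P.O.subtype c' 1 a' b'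
      rw [e, map_one] at this
      exact this
    have e1 : ((c'.d1 1 a' b' : P.O) : K) = (c.map (algebraMap L K)).d1 1 a b := by
      have := map_d1 P.O.subtype c' 1 a' b'
      rw [e, map_one] at this
      exact this
    have e2 : ((c'.d2 1 a' b' : P.O) : K) = (c.map (algebraMap L K)).d2 1 a b := by
      have := map_d2 P.O.subtype c' 1 a' b'
      rw [e, map_one] at this
      exact this
    have r1 : P.Reg ((c.map (algebraMap L K)).d1 1 a b) := by
      rw [← e1]; exact (c'.d1 1 a' b').2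
    have r2 : P.Reg ((c.map (algebraMap L K)).d2 1 a b) := by
      rw [← e2]; exact (c'.d2 1 a' b').2
    by_contra hcon
    push Not at hcon
    have h1 : P.resHom (c'.d1 1 a' b') = 0 := by
      by_contra hne
      refine hcon 0 ?_ (by rw [aeval_pderiv_zero]; exact r1)
      rw [aeval_pderiv_zero, P.red_of_reg r1]
      have : (⟨_, r1⟩ : P.O) = c'.d1 1 a' b' := Subtype.ext e1.symm
      rw [this]
      exact hne
    have h2 : P.resHom (c'.d2 1 a' b') = 0 := by
      by_contra hne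
      refine hcon 1 ?_ (by rw [aeval_pderiv_one]; exact r2)
      rw [aeval_pderiv_one, P.red_of_reg r2]
      have : (⟨_, r2⟩ : P.O) = c'.d2 1 a' b' := Subtype.ext e2.symm
      rw [this]
      exact hne
    have h3 : c'.ev 1 a' b' = 0 := by
      apply Subtype.ext
      have := map_ev P.O.subtype c' 1 a' b'
      rw [e, map_one] at this
      exact this.trans hev
    have h4 := euler3 c' 1 a' b'
    rw [h3, mul_zero, one_mul] at h4
    have h0 : P.resHom (c'.d0 1 a' b') = 0 := by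
      have := congrArg P.resHom h4
      rw [map_add, map_add, map_mul, map_mul, h1, h2, mul_zero, mul_zero, add_zero, add_zero,
        map_zero] at this
      exact this
    rw [map_d0] at h0
    rw [map_d1] at h1
    rw [map_d2] at h2
    have h5 := hs P.RF (P.resHom.comp (toO hP)) _ _ _ h0 h1 h2
    rw [map_one] at h5
    exact one_ne_zero h5.1
  obtain ⟨i, hi, hr⟩ := key
  rw [Ne, P.red_eq_zero_iff hr] at hi
  push Not at hi
  refine sGoodAll Ω K L ![a, b] c.aff P ⟨hP, ?_, ?_, ?_, ⟨i, hi.1, ?_⟩⟩ D hDL ?_ ?_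
  · rw [A.aeval_aff]; exact hev
  · rw [← hgen]
    congr 1
    simp [Set.pair_comm]
  · intro j
    fin_cases j
    · exact ha
    · exact hb
  · exact le_antisymm hi.2 ((P.reg_iff hi.1).1 hr)
  · rw [aeval_pderiv_one]; exact hDa
  · rw [aeval_pderiv_zero]; exact hDb

lemma d0_smul {R : Type*} [CommRing R] (c : Cub R) (t p q r : R) :
    c.d0 (t * p) (t * q) (t * r) = t ^ 2 * c.d0 p q r := by
  simp only [Cub.d0]; ring

lemma d1_smul {R : Type*} [CommRing R] (c : Cub R) (t p q r : R) :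
    c.d1 (t * p) (t * q) (t * r) = t ^ 2 * c.d1 p q r := by
  simp only [Cub.d1]; ring

lemma d2_smul {R : Type*} [CommRing R] (c : Cub R) (t p q r : R) :
    c.d2 (t * p) (t * q) (t * r) = t ^ 2 * c.d2 p q r := by
  simp only [Cub.d2]; ring

lemma ev_smul {R : Type*} [CommRing R] (c : Cub R) (t p q r : R) :
    c.ev (t * p) (t * q) (t * r) = t ^ 3 * c.ev p q r := by
  simp only [Cub.ev]; ring

open scoped IntermediateField.algebraAdjoinAdjoin in
lemma basis_one {L : IntermediateField Ω K} {t : K} (ht : Transcendental L t)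
    (hb : ∀ b : K, IsAlgebraic (IntermediateField.adjoin L {t}) b) :
    IsTranscendenceBasis L (fun _ : Unit => t) := by
  rw [isTranscendenceBasis_iff_algebraicIndependent_isAlgebraic]
  refine ⟨algebraicIndependent_unique_type_iff.2 ht, ?_⟩
  have h2 : Set.range (fun _ : Unit => t) = {t} := by simp
  rw [h2]
  have h3 : Algebra.IsAlgebraic (IntermediateField.adjoin L {t}) K := ⟨hb⟩
  exact (IsFractionRing.comap_isAlgebraic_iff (A := Algebra.adjoin L {t})
    (K := IntermediateField.adjoin L {t}) (C := K)).2 h3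

/-- **Smooth plane cubics.** -/
theorem smooth_good [CharZero Ω] {L : IntermediateField Ω K} {c : Cub L} {u v : K}
    (hs : SmoAll c) (hev : (c.map (algebraMap L K)).ev 1 u v = 0)
    (h2 : (c.map (algebraMap L K)).d2 1 u v ≠ 0) (hgen : IntermediateField.adjoin L {u, v} = ⊤)
    {t : K} (ht : Transcendental L t)
    (hb : ∀ b : K, IsAlgebraic (IntermediateField.adjoin L {t}) b) :
    IsCurve L ∧ ∃ D : Derivation Ω K K, D ≠ 0 ∧ (∀ a ∈ L, D a = 0) ∧
      ∀ P : Place Ω K, TrivOn P L → GoodAt P L D := by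
  classical
  have hcK : CharZero K := charZero_of_injective_algebraMap (algebraMap Ω K).injective
  refine ⟨⟨t, {u, v}, ht, hb, by rw [← hgen]; congr 1; simp⟩, ?_⟩
  have hbasis := basis_one ht hb
  obtain ⟨E0, hE0⟩ := exists_der (fun _ : Unit => t) hbasis (fun _ => 1)
  obtain ⟨E, hE⟩ : ∃ E : Derivation Ω K K, ∀ x, E x = E0 x := ⟨E0.restrictScalars Ω, fun _ => rfl⟩
  have hEne : E ≠ 0 := by
    intro h
    have h1 := hE0 ()
    rw [← hE, h] at h1
    exact zero_ne_one h1
  have hEL : ∀ a ∈ L, E a = 0 := by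
    intro a ha
    rw [hE]
    exact E0.map_algebraMap (⟨a, ha⟩ : L)
  obtain ⟨D, hDL, hDu, hDv, -⟩ := exists_norm3 hev h2 hgen hEne hEL
  refine ⟨D, ?_, hDL, ?_⟩
  · intro h
    rw [h] at hDu
    exact h2 hDu.symm
  intro P hP
  have hval : ∀ z : K, z ≠ 0 → P.Reg z ∨ P.Reg z⁻¹ := fun z _ => P.O.mem_or_inv_mem z
  set C := c.map (algebraMap L K) with hC
  have heu : C.d0 1 u v + u * C.d1 1 u v + v * C.d2 1 u v = 0 := by
    have := euler3 C 1 u v
    rw [hev, mul_zero, one_mul] at this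
    exact this
  have hDneg : D = (-1 : K) • ((-1 : K) • D) := by rw [smul_smul]; simp
  have hDL' : ∀ a ∈ L, ((-1 : K) • D) a = 0 := fun a ha => by
    rw [Derivation.smul_apply, hDL a ha, smul_zero]
  have hmem : ∀ (S : Set K) (a b : K), a ∈ IntermediateField.adjoin L S →
      b ∈ IntermediateField.adjoin L S → u = a → v = b → IntermediateField.adjoin L S = ⊤ := by
    intro S a b ha hb hua hvb
    rw [eq_top_iff, ← hgen, IntermediateField.adjoin_le_iff]
    rintro z (rfl | rfl)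
    · rw [hua]; exact ha
    · rw [hvb]; exact hb
  -- the chart with the coordinates `1 / u`, `v / u`
  have caseB : u ≠ 0 → P.Reg u⁻¹ → P.Reg (v * u⁻¹) → GoodAt P L D := by
    intro hu0 h1 h3
    apply Pool.Agent.Y37.SP.goodAt_smul (neg_ne_zero.2 one_ne_zero) (P.reg_neg P.reg_one) hDneg
    have e1 : (1 : K) = u⁻¹ * u := (inv_mul_cancel₀ hu0).symm
    refine chart3 hP (smoAll_s01 hs) (a := u⁻¹) (b := v * u⁻¹) ?_ ?_ h1 h3 hDL' ?_ ?_
    · change (s01 C).ev 1 u⁻¹ (v * u⁻¹) = 0
      rw [s01_ev]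
      have := ev_smul C u⁻¹ 1 u v
      rw [hev, mul_zero, mul_one, inv_mul_cancel₀ hu0, mul_comm u⁻¹ v] at this
      exact this
    · have ha : u⁻¹ ∈ IntermediateField.adjoin L {u⁻¹, v * u⁻¹} :=
        IntermediateField.subset_adjoin _ _ (by simp)
      have hb : v * u⁻¹ ∈ IntermediateField.adjoin L {u⁻¹, v * u⁻¹} :=
        IntermediateField.subset_adjoin _ _ (by simp)
      refine hmem _ (u⁻¹)⁻¹ (v * u⁻¹ * (u⁻¹)⁻¹) (inv_mem ha) (mul_mem hb (inv_mem ha)) ?_ ?_
      · rw [inv_inv]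
      · rw [inv_inv, mul_assoc, inv_mul_cancel₀ hu0, mul_one]
    · change _ = (s01 C).d2 1 u⁻¹ (v * u⁻¹)
      rw [s01_d2]
      have := d2_smul C u⁻¹ 1 u v
      rw [mul_one, inv_mul_cancel₀ hu0, mul_comm u⁻¹ v] at this
      rw [this, Derivation.smul_apply, Derivation.leibniz_inv, hDu, smul_eq_mul, smul_eq_mul]
      field_simp
    · change _ = - (s01 C).d1 1 u⁻¹ (v * u⁻¹)
      rw [s01_d1]
      have := d0_smul C u⁻¹ 1 u v
      rw [mul_one, inv_mul_cancel₀ hu0, mul_comm u⁻¹ v] at this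
      rw [this, Derivation.smul_apply, Derivation.leibniz, Derivation.leibniz_inv, hDu, hDv]
      simp only [smul_eq_mul]
      field_simp
      linear_combination heu
  have caseC : v ≠ 0 → P.Reg v⁻¹ → P.Reg (u * v⁻¹) → GoodAt P L D := by
    intro hv0 h1 h3
    apply Pool.Agent.Y37.SP.goodAt_smul (neg_ne_zero.2 one_ne_zero) (P.reg_neg P.reg_one) hDneg
    refine chart3 hP (smoAll_s02 hs) (a := u * v⁻¹) (b := v⁻¹) ?_ ?_ h3 h1 hDL' ?_ ?_
    · change (s02 C).ev 1 (u * v⁻¹) v⁻¹ = 0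
      rw [s02_ev]
      have := ev_smul C v⁻¹ 1 u v
      rw [hev, mul_zero, mul_one, inv_mul_cancel₀ hv0, mul_comm v⁻¹ u] at this
      exact this
    · have ha : u * v⁻¹ ∈ IntermediateField.adjoin L {u * v⁻¹, v⁻¹} :=
        IntermediateField.subset_adjoin _ _ (by simp)
      have hb : v⁻¹ ∈ IntermediateField.adjoin L {u * v⁻¹, v⁻¹} :=
        IntermediateField.subset_adjoin _ _ (by simp)
      refine hmem _ (u * v⁻¹ * (v⁻¹)⁻¹) (v⁻¹)⁻¹ (mul_mem ha (inv_mem hb)) (inv_mem hb) ?_ ?_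
      · rw [inv_inv, mul_assoc, inv_mul_cancel₀ hv0, mul_one]
      · rw [inv_inv]
    · change _ = (s02 C).d2 1 (u * v⁻¹) v⁻¹
      rw [s02_d2]
      have := d0_smul C v⁻¹ 1 u v
      rw [mul_one, inv_mul_cancel₀ hv0, mul_comm v⁻¹ u] at this
      rw [this, Derivation.smul_apply, Derivation.leibniz, Derivation.leibniz_inv, hDu, hDv]
      simp only [smul_eq_mul]
      field_simp
      linear_combination -heu
    · change _ = - (s02 C).d1 1 (u * v⁻¹) v⁻¹
      rw [s02_d1]
      have := d1_smul C v⁻¹ 1 u v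
      rw [mul_one, inv_mul_cancel₀ hv0, mul_comm v⁻¹ u] at this
      rw [this, Derivation.smul_apply, Derivation.leibniz_inv, hDv, smul_eq_mul, smul_eq_mul]
      field_simp
  by_cases hu : P.Reg u
  · by_cases hv : P.Reg v
    · exact chart3 hP hs hev hgen hu hv hDL hDu hDv
    · have hv0 : v ≠ 0 := fun h => hv (Or.inl h)
      have h1 := (hval v hv0).resolve_left hv
      exact caseC hv0 h1 (P.reg_mul hu h1)
  · have hu0 : u ≠ 0 := fun h => hu (Or.inl h)
    have h1 := (hval u hu0).resolve_left hu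
    by_cases h3 : P.Reg (v * u⁻¹)
    · exact caseB hu0 h1 h3
    · have h0 : v * u⁻¹ ≠ 0 := fun h => h3 (Or.inl h)
      have hv0 : v ≠ 0 := left_ne_zero_of_mul h0
      have h4 := (hval _ h0).resolve_left h3
      have h5 : P.Reg (u * v⁻¹) := by
        rw [mul_inv, inv_inv, mul_comm] at h4
        exact h4
      refine caseC hv0 ?_ h5
      have : v⁻¹ = u * v⁻¹ * u⁻¹ := by field_simp
      rw [this]
      exact P.reg_mul h5 h1

end

end Pool.Agent.V7H25.TF
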