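import Pool.Agent.V7H25.TF.Mono

set_option autoImplicit false

/-!
# Toric fibrations of hypersurfaces: monomials orthogonal to a direction (helper25)
-/

open MvPolynomial Module
open Pool.Agent.Y200.CB Pool.Agent.Y200.CY

namespace Pool.Agent.V7H25.TF

variable {Ω K : Type} [Field Ω] [Field K] [Algebra Ω K] {N : ℕ}

/-- the pairing -/
def dot (v μ : Fin N → ℤ) : ℤ := ∑ l, v l * μ l

/-- the Newton polytope of `f` has the full dimension: `f` is not homogeneous for any nontrivial
weight -/
def Full (f : MvPolynomial (Fin N) Ω) : Prop :=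
  ∀ v : Fin N → ℤ, v ≠ 0 → ∃ m ∈ f.support, ∃ m' ∈ f.support, dot v (ev m) ≠ dot v (ev m')

/-- the hyperplane orthogonal to `v` -/
def hyp (v : Fin N → ℤ) : Submodule ℚ (Fin N → ℚ) :=
  LinearMap.ker (∑ l, (v l : ℚ) • LinearMap.proj l : (Fin N → ℚ) →ₗ[ℚ] ℚ)

lemma mem_hyp {v : Fin N → ℤ} {q : Fin N → ℚ} : q ∈ hyp v ↔ ∑ l, (v l : ℚ) * q l = 0 := by
  rw [hyp, LinearMap.mem_ker]
  simp

lemma rv_mem_hyp {v μ : Fin N → ℤ} : rv μ ∈ hyp v ↔ dot v μ = 0 := by
  rw [mem_hyp, dot]
  simp only [rv]
  rw [← Int.cast_inj (α := ℚ)]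
  push_cast
  rfl

variable {f : MvPolynomial (Fin N) Ω} {x : Fin N → K}

lemma x_ne_zero (hx : GPt f x) (hfull : Full f) (l : Fin N) : x l ≠ 0 := by
  intro h0
  have h1 : f ∣ X l := (hx.zero_iff _).1 (by rw [aeval_X, h0])
  obtain ⟨h, hh⟩ := h1
  obtain ⟨m, hm, m', hm', hne⟩ := hfull (Pi.single l 1) (by
    intro h
    have := congrFun h l
    simp at this)
  have hf0 : f ≠ 0 := by rintro rfl; simp at hm
  have hh0 : h ≠ 0 := by rintro rfl; rw [mul_zero] at hh; exact X_ne_zero l hh
  rcases (X_prime (R := Ω) (i := l)).irreducible.isUnit_or_isUnit hh with hu | hu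
  · have := hx.zero_iff 1
    rw [map_one] at this
    exact one_ne_zero (this.2 (hu.dvd))
  · obtain ⟨c, hc, rfl⟩ := isUnit_iff_eq_C_of_isReduced.1 hu
    -- `f` is a multiple of the variable
    have hf : f = C c⁻¹ * X l := by
      rw [hh]
      have h3 : (C c : MvPolynomial (Fin N) Ω) * C c⁻¹ = 1 := by
        rw [← C_mul, mul_inv_cancel₀ hc.ne_zero, C_1]
      linear_combination (-f) * h3
    have hsupp : ∀ m ∈ f.support, m = Finsupp.single l 1 := by
      intro m hm
      rw [hf, X, C_mul_monomial] at hm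
      exact Finset.mem_singleton.1 (support_monomial_subset hm)
    rw [hsupp m hm, hsupp m' hm'] at hne
    exact hne rfl

/-- proper parts of `f` do not vanish at the generic point -/
lemma part_ne_zero (hx : GPt f x) {T : Finset (Fin N →₀ ℕ)} (hT : T ⊆ f.support)
    (hne : T.Nonempty) (hTf : T ≠ f.support) :
    ∑ m ∈ T, algebraMap Ω K (coeff m f) * mon x (ev m) ≠ 0 := by
  classical
  intro h0
  set P : MvPolynomial (Fin N) Ω := ∑ m ∈ T, monomial m (coeff m f) with hP
  have hcoeff : ∀ n, coeff n P = if n ∈ T then coeff n f else 0 := by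
    intro n
    rw [hP, coeff_sum]
    simp only [coeff_monomial]
    by_cases hn : n ∈ T
    · rw [if_pos hn, Finset.sum_eq_single n]
      · rw [if_pos rfl]
      · intro b _ hb
        rw [if_neg hb]
      · intro h; exact absurd hn h
    · rw [if_neg hn]
      refine Finset.sum_eq_zero fun m hm => ?_
      rw [if_neg]
      rintro rfl
      exact hn hm
  have hsupp : P.support = T := by
    ext n
    rw [MvPolynomial.mem_support_iff, hcoeff]
    constructor
    · intro h
      by_contra hn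
      rw [if_neg hn] at h
      exact h rfl
    · intro hn
      rw [if_pos hn]
      exact MvPolynomial.mem_support_iff.1 (hT hn)
  have hP0 : P ≠ 0 := by
    intro h
    rw [h, support_zero] at hsupp
    rw [← hsupp] at hne
    exact Finset.not_nonempty_empty hne
  have hzero : aeval x P = 0 := by
    rw [aeval_eq, hsupp, ← h0]
    exact Finset.sum_congr rfl fun m hm => by rw [hcoeff, if_pos hm]
  obtain ⟨h, hh⟩ := (hx.zero_iff _).1 hzero
  have hf0 : f ≠ 0 := by rintro rfl; rw [zero_mul] at hh; exact hP0 hh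
  have hh0 : h ≠ 0 := by rintro rfl; rw [mul_zero] at hh; exact hP0 hh
  have hdeg : P.totalDegree ≤ f.totalDegree := by
    rw [totalDegree, totalDegree, hsupp]
    exact Finset.sup_mono hT
  rw [hh, totalDegree_mul_of_isDomain hf0 hh0] at hdeg
  have h1 : h.totalDegree = 0 := by omega
  rw [totalDegree_eq_zero_iff_eq_C] at h1
  apply hTf
  rw [← hsupp, hh, h1, mul_comm]
  ext n
  rw [MvPolynomial.mem_support_iff, MvPolynomial.mem_support_iff, coeff_C_mul]
  have hc : coeff 0 h ≠ 0 := by
    intro h2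
    rw [h2, C_0] at h1
    exact hh0 h1
  simp [hc]

/-- Bezout -/
lemma bezout {v : Fin N → ℤ} (hv : v ≠ 0) : ∃ (d : ℤ) (η c : Fin N → ℤ), d ≠ 0 ∧ dot v η = d ∧
    ∀ l, v l = d * c l := by
  set I : Ideal ℤ := Ideal.span (Set.range v) with hI
  obtain ⟨d, hd⟩ := (IsPrincipalIdealRing.principal I).principal
  have hdI : d ∈ I := by
    rw [hd]; exact Submodule.mem_span_singleton_self d
  rw [hI] at hdI
  obtain ⟨η, hη⟩ := (Ideal.mem_span_range_iff_exists_fun).1 hdI
  have hdvd : ∀ l, ∃ c, v l = d * c := by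
    intro l
    have h1 : v l ∈ I := Ideal.subset_span ⟨l, rfl⟩
    rw [hd] at h1
    obtain ⟨c, hc⟩ := Submodule.mem_span_singleton.1 h1
    exact ⟨c, by rw [← hc, smul_eq_mul, mul_comm]⟩
  choose c hc using hdvd
  refine ⟨d, η, c, ?_, ?_, hc⟩
  · rintro rfl
    apply hv
    ext l
    rw [hc l, zero_mul, Pi.zero_apply]
  · rw [← hη, dot]
    exact Finset.sum_congr rfl fun l _ => by ring

lemma dot_sub (v μ ν : Fin N → ℤ) : dot v (μ - ν) = dot v μ - dot v ν := by
  simp only [dot, Pi.sub_apply, mul_sub, Finset.sum_sub_distrib]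

lemma dot_smul (v : Fin N → ℤ) (n : ℤ) (μ : Fin N → ℤ) : dot v (n • μ) = n * dot v μ := by
  simp only [dot, Pi.smul_apply, smul_eq_mul, Finset.mul_sum]
  exact Finset.sum_congr rfl fun l _ => by ring

/-- The monomials orthogonal to `v ≠ 0` generate a field over which everything is algebraic. -/
theorem fld_hyp (hx : GPt f x) (hfull : Full f) {v : Fin N → ℤ} (hv : v ≠ 0) :
    fld Ω x (hyp v) = ⊤ := by
  classical
  have hx0 := x_ne_zero hx hfull
  obtain ⟨d, η, c, hd, hη, hc⟩ := bezout hv
  set C := fld Ω x (hyp v) with hC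
  set y := mon x η with hy
  have hy0 : y ≠ 0 := mon_ne_zero hx0 η
  -- the weight, divided by `d`
  have hwt : ∀ μ : Fin N → ℤ, dot v μ = d * dot c μ := by
    intro μ
    rw [dot, dot, Finset.mul_sum]
    exact Finset.sum_congr rfl fun l _ => by rw [hc l]; ring
  have hperp : ∀ μ : Fin N → ℤ, mon x (μ - dot c μ • η) ∈ C := by
    intro μ
    refine mon_mem_fld (rv_mem_hyp.2 ?_)
    rw [dot_sub, dot_smul, hη, hwt]
    ring
  have hmon : ∀ μ : Fin N → ℤ, mon x μ = mon x (μ - dot c μ • η) * y ^ dot c μ := by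
    intro μ
    rw [hy, ← mon_smul, ← mon_add hx0, sub_add_cancel]
  have hf0 : f ≠ 0 := by
    rintro rfl
    obtain ⟨m, hm, -⟩ := hfull v hv
    simp at hm
  have hsupp : f.support.Nonempty := by
    rw [Finset.nonempty_iff_ne_empty]
    exact fun h => hf0 (support_eq_empty.1 h)
  obtain ⟨m₀, hm₀, hmin⟩ := f.support.exists_min_image (fun m => dot c (ev m)) hsupp
  set e₀ := dot c (ev m₀) with he₀
  -- the polynomial
  set p : Polynomial C := ∑ m ∈ f.support, Polynomial.C (algebraMap Ω C (coeff m f) *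
    ⟨_, hperp (ev m)⟩) * Polynomial.X ^ (dot c (ev m) - e₀).toNat with hp
  have hroot : Polynomial.aeval y p = 0 := by
    have h1 : aeval x f = 0 := (hx.zero_iff _).2 dvd_rfl
    rw [aeval_eq] at h1
    have h2 : y ^ e₀ * Polynomial.aeval y p = 0 := by
      rw [hp, map_sum, Finset.mul_sum, ← h1]
      refine Finset.sum_congr rfl fun m hm => ?_
      rw [map_mul, map_pow, Polynomial.aeval_X, Polynomial.aeval_C, map_mul,
        ← IsScalarTower.algebraMap_apply]
      change y ^ e₀ * (algebraMap Ω K (coeff m f) * mon x (ev m - dot c (ev m) • η) *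
        y ^ (dot c (ev m) - e₀).toNat) = algebraMap Ω K (coeff m f) * mon x (ev m)
      rw [hmon (ev m)]
      have h3 : y ^ e₀ * y ^ (dot c (ev m) - e₀).toNat = y ^ dot c (ev m) := by
        rw [← zpow_natCast, Int.toNat_of_nonneg (sub_nonneg.2 (hmin m hm)), ← zpow_add₀ hy0]
        congr 1
        ring
      rw [← h3]
      ring
    exact (mul_eq_zero.1 h2).resolve_left (zpow_ne_zero _ hy0)
  have hp0 : p ≠ 0 := by
    intro h
    have h1 := congrArg (fun q : Polynomial C => algebraMap C K (q.coeff 0)) h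
    simp only [Polynomial.coeff_zero, map_zero] at h1
    set T := f.support.filter (fun m => dot c (ev m) = e₀) with hT
    have h2 : algebraMap C K (p.coeff 0) * y ^ e₀ =
        ∑ m ∈ T, algebraMap Ω K (coeff m f) * mon x (ev m) := by
      rw [hp, Polynomial.finsetSum_coeff, map_sum, Finset.sum_mul, hT, Finset.sum_filter]
      refine Finset.sum_congr rfl fun m hm => ?_
      rw [Polynomial.coeff_C_mul, Polynomial.coeff_X_pow]
      by_cases he : dot c (ev m) = e₀
      · rw [if_pos he, if_pos (by rw [he, sub_self]; rfl), mul_one, map_mul,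
          ← IsScalarTower.algebraMap_apply]
        change algebraMap Ω K (coeff m f) * mon x (ev m - dot c (ev m) • η) * y ^ e₀ = _
        rw [hmon (ev m), he]
        ring
      · rw [if_neg he, if_neg, mul_zero, map_zero, zero_mul]
        have := hmin m hm
        have h3 : e₀ < dot c (ev m) := lt_of_le_of_ne this (Ne.symm he)
        omega
    refine part_ne_zero hx (T := T) (Finset.filter_subset _ _)
      ⟨m₀, Finset.mem_filter.2 ⟨hm₀, rfl⟩⟩ ?_ ?_
    · intro hTf
      obtain ⟨m, hm, m', hm', hne⟩ := hfull v hv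
      rw [← hTf] at hm hm'
      apply hne
      rw [hwt, hwt, (Finset.mem_filter.1 hm).2, (Finset.mem_filter.1 hm').2]
    · rw [← h2, h1, zero_mul]
  have hyC : y ∈ C := fld_closed _ ⟨p, hp0, hroot⟩
  rw [eq_top_iff, ← hx.generates, IntermediateField.adjoin_le_iff]
  rintro _ ⟨l, rfl⟩
  rw [← mon_single (x := x) l, hmon]
  exact mul_mem (hperp _) (zpow_mem hyC _)

end Pool.Agent.V7H25.TF
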